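import Pool.Agent.OrdThm.Order
import Pool.Agent.Mader.Ear

/-! Colourings with few forbidden colours, toughness and halving (helper39). -/

open Classical

namespace Pool.Agent.OrdThm

open Pool.Agent.Mader (Acyc Conn)

universe u

variable {V : Type u}

/-- `X` has an acyclic colouring from every palette of at least `p` colours in which at most `m`
colours are forbidden at every vertex. -/
def LCol (a : V → V → Prop) (m : ℕ) (X : Finset V) (p : ℕ) : Prop :=
  ∀ (P : Finset ℕ) (F : V → Finset ℕ), p ≤ P.card → (∀ v ∈ X, (F v).card ≤ m) →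
    ∃ c : V → ℕ, (∀ v ∈ X, c v ∈ P ∧ c v ∉ F v) ∧ ∀ i, Acyc a (X.filter (fun v => c v = i))

theorem LCol.mono {a : V → V → Prop} {m m' : ℕ} {X X' : Finset V} {p p' : ℕ}
    (h : LCol a m X p) (hm : m' ≤ m) (hX : X' ⊆ X) (hp : p ≤ p') : LCol a m' X' p' := by
  intro P F hP hF
  obtain ⟨c, h1, h2⟩ := h P (fun v => if v ∈ X' then F v else ∅) (hp.trans hP) (by
    intro v _
    by_cases hv : v ∈ X'
    · rw [if_pos hv]
      exact (hF v hv).trans hm
    · rw [if_neg hv]
      simp)
  refine ⟨c, fun v hv => ?_, fun i => (h2 i).mono ?_⟩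
  · have h3 := h1 v (hX hv)
    rw [if_pos hv] at h3
    exact h3
  · intro v hv
    rw [Finset.mem_filter] at hv ⊢
    exact ⟨hX hv.1, hv.2⟩

theorem LCol.greedy {a : V → V → Prop} (hirr : ∀ v, ¬ a v v) (m : ℕ) (X : Finset V) :
    LCol a m X (m + X.card) := by
  have key : ∀ X : Finset V, ∀ (P : Finset ℕ) (F : V → Finset ℕ), m + X.card ≤ P.card →
      (∀ v ∈ X, (F v).card ≤ m) →
      ∃ c : V → ℕ, (∀ v ∈ X, c v ∈ P ∧ c v ∉ F v) ∧ ∀ v ∈ X, ∀ w ∈ X, c v = c w → v = w := by
    intro X
    induction X using Finset.induction_on with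
    | empty =>
      intro P F _ _
      exact ⟨fun _ => 0, by simp, by simp⟩
    | insert x X hx ih =>
      intro P F hP hF
      rw [Finset.card_insert_of_notMem hx] at hP
      obtain ⟨c, h1, h2⟩ := ih P F (by omega) (fun v hv => hF v (Finset.mem_insert_of_mem hv))
      have hlt : (F x ∪ X.image c).card < P.card := by
        have h3 := Finset.card_union_le (F x) (X.image c)
        have h4 := hF x (Finset.mem_insert_self _ _)
        have h5 : (X.image c).card ≤ X.card := Finset.card_image_le
        omega
      obtain ⟨k, hkP, hk⟩ := Finset.exists_mem_notMem_of_card_lt_card hlt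
      rw [Finset.mem_union] at hk
      push Not at hk
      have hkX : ∀ v ∈ X, c v ≠ k := fun v hv h =>
        hk.2 (h ▸ Finset.mem_image_of_mem c hv)
      refine ⟨Function.update c x k, ?_, ?_⟩
      · intro v hv
        by_cases hvx : v = x
        · subst hvx
          rw [Function.update_self]
          exact ⟨hkP, hk.1⟩
        · rw [Function.update_of_ne hvx]
          exact h1 v ((Finset.mem_insert.mp hv).resolve_left hvx)
      · intro v hv w hw hvw
        by_cases hvx : v = x
        · by_cases hwx : w = x
          · rw [hvx, hwx]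
          · rw [hvx, Function.update_self, Function.update_of_ne hwx] at hvw
            exact absurd hvw.symm (hkX w ((Finset.mem_insert.mp hw).resolve_left hwx))
        · by_cases hwx : w = x
          · rw [hwx, Function.update_self, Function.update_of_ne hvx] at hvw
            exact absurd hvw (hkX v ((Finset.mem_insert.mp hv).resolve_left hvx))
          · rw [Function.update_of_ne hvx, Function.update_of_ne hwx] at hvw
            exact h2 v ((Finset.mem_insert.mp hv).resolve_left hvx) w
              ((Finset.mem_insert.mp hw).resolve_left hwx) hvw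
  intro P F hP hF
  obtain ⟨c, h1, h2⟩ := key X P F hP hF
  refine ⟨c, h1, fun i S hS hne => ?_⟩
  obtain ⟨s, hs⟩ := hne
  refine ⟨s, hs, fun v hv => ?_⟩
  have e1 := Finset.mem_filter.mp (hS hs)
  have e2 := Finset.mem_filter.mp (hS hv)
  rw [h2 v e2.1 s e1.1 (e2.2.trans e1.2.symm)]
  exact hirr s

/-- A set which is not `p`-colourable has more than `p - m` vertices. -/
theorem card_of_not_LCol {a : V → V → Prop} (hirr : ∀ v, ¬ a v v) {m : ℕ} {X : Finset V} {p : ℕ}
    (h : ¬ LCol a m X p) : p < m + X.card := by
  by_contra hlt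
  push Not at hlt
  exact h ((LCol.greedy hirr m X).mono (le_refl _) (Finset.Subset.refl _) hlt)

/-- `B` guards `K` in `W`. -/
def Guard (a : V → V → Prop) (W K B : Finset V) : Prop :=
  ∀ S, Conn a S → S ⊆ W → (S ∩ K).Nonempty → Disjoint S B → S ⊆ K

/-- Toughness. -/
theorem tough {a : V → V → Prop} {m f : ℕ} {W K B : Finset V} (hW : ¬ LCol a m W f)
    (hmin : ∀ W' ⊂ W, LCol a m W' f) (hK : K ⊆ W) (hne : K.Nonempty)
    (hd : Disjoint B K) (hG : Guard a W K B) : ¬ LCol a m K (f - B.card) := by
  intro hcol
  apply hW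
  intro P F hP hF
  obtain ⟨c0, h1, h2⟩ := hmin (W \ K) (by
    obtain ⟨x, hx⟩ := hne
    rw [Finset.ssubset_iff_of_subset Finset.sdiff_subset]
    exact ⟨x, hK hx, fun h => (Finset.mem_sdiff.mp h).2 hx⟩) P F hP
    (fun v hv => hF v (Finset.mem_sdiff.mp hv).1)
  obtain ⟨c1, h3, h4⟩ := hcol (P \ B.image c0) F (by
    have e1 := Finset.le_card_sdiff (B.image c0) P
    have e2 : (B.image c0).card ≤ B.card := Finset.card_image_le
    omega) (fun v hv => hF v (hK hv))
  refine ⟨fun v => if v ∈ K then c1 v else c0 v, ?_, ?_⟩
  · intro v hv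
    by_cases hvK : v ∈ K
    · have h5 := h3 v hvK
      simp only [if_pos hvK]
      exact ⟨(Finset.mem_sdiff.mp h5.1).1, h5.2⟩
    · simp only [if_neg hvK]
      exact h1 v (Finset.mem_sdiff.mpr ⟨hv, hvK⟩)
  · intro i
    by_contra hna
    unfold Pool.Agent.Mader.Acyc at hna
    push Not at hna
    obtain ⟨Y, hY, hYne, hYs⟩ := hna
    obtain ⟨S, hSY, hSc, hSs⟩ := Pool.Agent.Mader.exists_conn_sinkless hYne hYs
    have hSm : ∀ v ∈ S, v ∈ W ∧ (if v ∈ K then c1 v else c0 v) = i := fun v hv =>
      Finset.mem_filter.mp (hY (hSY hv))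
    obtain ⟨s0, hs0⟩ := hSc.1
    by_cases hSK : (S ∩ K).Nonempty
    · by_cases hSB : Disjoint S B
      · have hSK' := hG S hSc (fun v hv => (hSm v hv).1) hSK hSB
        obtain ⟨z, hz, hz'⟩ := h4 i S (fun v hv => Finset.mem_filter.mpr ⟨hSK' hv, by
          have := (hSm v hv).2
          rw [if_pos (hSK' hv)] at this
          exact this⟩) ⟨s0, hs0⟩
        obtain ⟨y, hy, hzy⟩ := hSs z hz
        exact hz' y hy hzy
      · rw [Finset.not_disjoint_iff] at hSB
        obtain ⟨b, hbS, hbB⟩ := hSB
        obtain ⟨k, hk⟩ := hSK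
        rw [Finset.mem_inter] at hk
        have e1 := (hSm k hk.1).2
        rw [if_pos hk.2] at e1
        have e2 := (hSm b hbS).2
        rw [if_neg (Finset.disjoint_left.mp hd hbB)] at e2
        have e3 := (Finset.mem_sdiff.mp (h3 k hk.2).1).2
        apply e3
        rw [e1, ← e2]
        exact Finset.mem_image_of_mem c0 hbB
    · have hSK' : ∀ v ∈ S, v ∉ K := fun v hv hvK =>
        hSK ⟨v, Finset.mem_inter.mpr ⟨hv, hvK⟩⟩
      obtain ⟨z, hz, hz'⟩ := h2 i S (fun v hv => Finset.mem_filter.mpr
        ⟨Finset.mem_sdiff.mpr ⟨(hSm v hv).1, hSK' v hv⟩, by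
          have := (hSm v hv).2
          rw [if_neg (hSK' v hv)] at this
          exact this⟩) ⟨s0, hs0⟩
      obtain ⟨y, hy, hzy⟩ := hSs z hz
      exact hz' y hy hzy

/-- Halving. -/
theorem halving {a : V → V → Prop} (Z : Finset V) {Ξ : Finset V} {m f q : ℕ}
    (h : ¬ LCol a m Ξ f) :
    ∃ K ⊆ Ξ, Insep a Z q Ξ K ∧ ¬ LCol a m K (f - 2 * (q - 1)) := by
  -- a minimal bad set
  have hfin : (Ξ.powerset.filter (fun W => ¬ LCol a m W f)).Nonempty :=
    ⟨Ξ, Finset.mem_filter.mpr ⟨Finset.mem_powerset.mpr (Finset.Subset.refl _), h⟩⟩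
  obtain ⟨W, hW, hWmin⟩ := Finset.exists_min_image _ Finset.card hfin
  rw [Finset.mem_filter, Finset.mem_powerset] at hW
  obtain ⟨hWΞ, hWbad⟩ := hW
  have hmin : ∀ W' ⊂ W, LCol a m W' f := by
    intro W' hW'
    by_contra hb
    have h1 := hWmin W' (Finset.mem_filter.mpr
      ⟨Finset.mem_powerset.mpr (hW'.1.trans hWΞ), hb⟩)
    have h2 := Finset.card_lt_card hW'
    omega
  have key : ∀ n : ℕ, ∀ K : Finset V, K.card = n → K ⊆ W → K.Nonempty → ∀ B ⊆ W,
      Disjoint B K → Guard a W K B → B.card ≤ 2 * (q - 1) →
      ∃ K' ⊆ Ξ, Insep a Z q Ξ K' ∧ ¬ LCol a m K' (f - 2 * (q - 1)) := by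
    intro n
    induction n using Nat.strong_induction_on with
    | _ n ih =>
      intro K hKn hKW hKne B hBW hd hG hBc
      by_cases hins : Insep a Z q Ξ K
      · refine ⟨K, hKW.trans hWΞ, hins, fun hcol => ?_⟩
        exact tough hWbad hmin hKW hKne hd hG
          (hcol.mono (le_refl _) (Finset.Subset.refl _) (by omega))
      · unfold Insep at hins
        push Not at hins
        obtain ⟨R, hR, hRc, hR1, hR2⟩ := hins (hKW.trans hWΞ)
        set NR := nb a (Ξ ∪ Z) R with hNR
        have hexit : ∀ u ∈ R, ∀ v ∈ W, v ∉ R → a u v → v ∈ NR := fun u hu v hv hvR huv =>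
          mem_nb.mpr ⟨Finset.mem_union_left _ (hWΞ hv), hvR, u, hu, huv⟩
        have hNRd : ∀ y ∈ NR, y ∉ R := fun y hy => (mem_nb.mp hy).2.1
        have hsum : (B ∩ R).card + (B \ (R ∪ NR)).card ≤ B.card := by
          rw [← Finset.card_union_of_disjoint]
          · exact Finset.card_le_card (Finset.union_subset Finset.inter_subset_left
              Finset.sdiff_subset)
          · rw [Finset.disjoint_left]
            intro y hy hy'
            exact (Finset.mem_sdiff.mp hy').2 (Finset.mem_union_left _
              (Finset.mem_inter.mp hy).2)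
        rw [Finset.not_disjoint_iff] at hR1
        obtain ⟨k1, hk1, hk1R⟩ := hR1
        rw [Finset.not_subset] at hR2
        obtain ⟨k2, hk2, hk2R⟩ := hR2
        have hk2R' : k2 ∉ R := fun h => hk2R (Finset.mem_union_left _ h)
        have hNRW : (NR ∩ W).card ≤ q - 1 := by
          have := Finset.card_le_card (Finset.inter_subset_left (s₁ := NR) (s₂ := W))
          omega
        rcases Nat.lt_or_ge (B ∩ R).card (q - 1 + 1) with hcase | hcase
        · -- the side inside `R`
          have hlt : (K ∩ R).card < n := by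
            rw [← hKn]
            apply Finset.card_lt_card
            rw [Finset.ssubset_iff_of_subset Finset.inter_subset_left]
            exact ⟨k2, hk2, fun h => hk2R' (Finset.mem_inter.mp h).2⟩
          refine ih _ hlt (K ∩ R) rfl (Finset.inter_subset_left.trans hKW)
            ⟨k1, Finset.mem_inter.mpr ⟨hk1, hk1R⟩⟩ ((NR ∩ W) ∪ (B ∩ R))
            (Finset.union_subset Finset.inter_subset_right
              (Finset.inter_subset_left.trans hBW)) ?_ ?_ ?_
          · rw [Finset.disjoint_union_left]
            refine ⟨?_, hd.mono Finset.inter_subset_left Finset.inter_subset_left⟩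
            rw [Finset.disjoint_left]
            intro y hy hy'
            exact hNRd y (Finset.mem_inter.mp hy).1 (Finset.mem_inter.mp hy').2
          · intro S hS hSW hSK hSB
            obtain ⟨s, hs⟩ := hSK
            rw [Finset.mem_inter, Finset.mem_inter] at hs
            have hSR : S ⊆ R := by
              by_contra hcon
              rw [Finset.not_subset] at hcon
              obtain ⟨t, htS, htR⟩ := hcon
              obtain ⟨u, hu, v, hv, hvn, huv⟩ := hS.2 (S ∩ R) Finset.inter_subset_left
                ⟨s, Finset.mem_inter.mpr ⟨hs.1, hs.2.2⟩⟩ (fun h => htR (by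
                  rw [← h] at htS
                  exact (Finset.mem_inter.mp htS).2))
              have hvR : v ∉ R := fun h => hvn (Finset.mem_inter.mpr ⟨hv, h⟩)
              have := hexit u (Finset.mem_inter.mp hu).2 v (hSW hv) hvR huv
              exact Finset.disjoint_left.mp hSB hv (Finset.mem_union_left _
                (Finset.mem_inter.mpr ⟨this, hSW hv⟩))
            have hSB' : Disjoint S B := by
              rw [Finset.disjoint_left]
              intro y hy hyB
              exact Finset.disjoint_left.mp hSB hy (Finset.mem_union_right _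
                (Finset.mem_inter.mpr ⟨hyB, hSR hy⟩))
            have := hG S hS hSW ⟨s, Finset.mem_inter.mpr ⟨hs.1, hs.2.1⟩⟩ hSB'
            intro y hy
            exact Finset.mem_inter.mpr ⟨this hy, hSR hy⟩
          · have := Finset.card_union_le (NR ∩ W) (B ∩ R)
            omega
        · -- the side outside
          have hlt : (K \ (R ∪ NR)).card < n := by
            rw [← hKn]
            apply Finset.card_lt_card
            rw [Finset.ssubset_iff_of_subset Finset.sdiff_subset]
            exact ⟨k1, hk1, fun h => (Finset.mem_sdiff.mp h).2 (Finset.mem_union_left _ hk1R)⟩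
          refine ih _ hlt (K \ (R ∪ NR)) rfl (Finset.sdiff_subset.trans hKW)
            ⟨k2, Finset.mem_sdiff.mpr ⟨hk2, hk2R⟩⟩ ((NR ∩ W) ∪ (B \ (R ∪ NR)))
            (Finset.union_subset Finset.inter_subset_right
              (Finset.sdiff_subset.trans hBW)) ?_ ?_ ?_
          · rw [Finset.disjoint_union_left]
            refine ⟨?_, hd.mono Finset.sdiff_subset Finset.sdiff_subset⟩
            rw [Finset.disjoint_left]
            intro y hy hy'
            exact (Finset.mem_sdiff.mp hy').2 (Finset.mem_union_right _
              (Finset.mem_inter.mp hy).1)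
          · intro S hS hSW hSK hSB
            obtain ⟨s, hs⟩ := hSK
            rw [Finset.mem_inter, Finset.mem_sdiff] at hs
            have hSR : ∀ y ∈ S, y ∉ R := by
              intro t htS htR
              obtain ⟨u, hu, v, hv, hvn, huv⟩ := hS.2 (S ∩ R) Finset.inter_subset_left
                ⟨t, Finset.mem_inter.mpr ⟨htS, htR⟩⟩ (fun h => hs.2.2 (by
                  have h' := hs.1
                  rw [← h] at h'
                  exact Finset.mem_union_left _ (Finset.mem_inter.mp h').2))
              have hvR : v ∉ R := fun h => hvn (Finset.mem_inter.mpr ⟨hv, h⟩)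
              have := hexit u (Finset.mem_inter.mp hu).2 v (hSW hv) hvR huv
              exact Finset.disjoint_left.mp hSB hv (Finset.mem_union_left _
                (Finset.mem_inter.mpr ⟨this, hSW hv⟩))
            have hSN : ∀ y ∈ S, y ∉ R ∪ NR := by
              intro y hy hyR
              rcases Finset.mem_union.mp hyR with h5 | h5
              · exact hSR y hy h5
              · exact Finset.disjoint_left.mp hSB hy (Finset.mem_union_left _
                  (Finset.mem_inter.mpr ⟨h5, hSW hy⟩))
            have hSB' : Disjoint S B := by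
              rw [Finset.disjoint_left]
              intro y hy hyB
              exact Finset.disjoint_left.mp hSB hy (Finset.mem_union_right _
                (Finset.mem_sdiff.mpr ⟨hyB, hSN y hy⟩))
            have := hG S hS hSW ⟨s, Finset.mem_inter.mpr ⟨hs.1, hs.2.1⟩⟩ hSB'
            intro y hy
            exact Finset.mem_sdiff.mpr ⟨this hy, hSN y hy⟩
          · have := Finset.card_union_le (NR ∩ W) (B \ (R ∪ NR))
            omega
  have hWne : W.Nonempty := by
    by_contra hemp
    rw [Finset.not_nonempty_iff_eq_empty] at hemp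
    apply hWbad
    intro P F _ _
    refine ⟨fun _ => 0, by simp [hemp], fun i => ?_⟩
    intro S hS hne
    obtain ⟨s, hs⟩ := hne
    have := Finset.mem_filter.mp (hS hs)
    rw [hemp] at this
    exact absurd this.1 (Finset.notMem_empty _)
  exact key W.card W rfl (Finset.Subset.refl _) hWne ∅ (Finset.empty_subset _)
    (Finset.disjoint_empty_left _) (fun S _ hSW _ _ => hSW) (by simp)

end Pool.Agent.OrdThm
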