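import Pool.Agent.OrdThm.OS

/-! The one-sided core theorem with vertices which are neither coloured nor deleted. -/

open Classical

namespace Pool.Agent.OrdThm

open Pool.Agent.Mader (Acyc Conn)

universe u

variable {V : Type u}

/-- One step: if all rich inseparable sets of `X` are attached and there is one, then an attached
vertex can be deleted. -/
theorem step_junk {a : V → V → Prop} {T X Z : Finset V} {N : ℕ} (hN : 0 < N)
    {Rich : Finset V → Prop} (hmono : ∀ K K' : Finset V, K ⊆ K' → Rich K → Rich K')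
    (hbig : ∀ K, Rich K → 5 * N < K.card)
    (hI : ∀ K ⊆ T, Insep a Z (2 * N) X K → Rich K → ∀ v ∈ K, Att a Z N X v)
    (hex : ∃ K ⊆ T, Insep a Z (2 * N) X K ∧ Rich K) :
    ∃ x ∈ X, x ∈ T ∧ Att a Z N X x ∧
      ∀ K ⊆ T, Insep a Z (2 * N) (X.erase x) K → Rich K → ∀ v ∈ K,
        Att a Z N (X.erase x) v := by
  -- the maximal rich inseparable sets
  set BB := X.powerset.filter (fun K => Insep a Z (2 * N) X K ∧ Rich K ∧
    (∀ K' ⊆ T, Insep a Z (2 * N) X K' → K ⊆ K' → K' = K) ∧ K ⊆ T) with hBB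
  have hmem : ∀ K, K ∈ BB ↔ (Insep a Z (2 * N) X K ∧ Rich K ∧
      (∀ K' ⊆ T, Insep a Z (2 * N) X K' → K ⊆ K' → K' = K) ∧ K ⊆ T) := by
    intro K
    rw [hBB, Finset.mem_filter]
    exact ⟨fun h => h.2, fun h => ⟨Finset.mem_powerset.mpr h.1.1, h⟩⟩
  have hcover : ∀ K ⊆ T, Insep a Z (2 * N) X K → Rich K → ∃ K' ∈ BB, K ⊆ K' := by
    intro K hKT hK hr
    have hne : (X.powerset.filter (fun K' => K' ⊆ T ∧ Insep a Z (2 * N) X K' ∧
        K ⊆ K')).Nonempty :=
      ⟨K, Finset.mem_filter.mpr ⟨Finset.mem_powerset.mpr hK.1, hKT, hK, Finset.Subset.refl _⟩⟩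
    obtain ⟨K', hK', hmax⟩ := Finset.exists_max_image _ Finset.card hne
    rw [Finset.mem_filter] at hK'
    refine ⟨K', (hmem K').mpr ⟨hK'.2.2.1, hmono _ _ hK'.2.2.2 hr, fun L hLT hL hsub => ?_,
      hK'.2.1⟩, hK'.2.2.2⟩
    have h1 := hmax L (Finset.mem_filter.mpr ⟨Finset.mem_powerset.mpr hL.1, hLT, hL,
      hK'.2.2.2.trans hsub⟩)
    exact (Finset.eq_of_subset_of_card_le hsub h1).symm
  let C : Ctx V :=
    { a := a
      X := X
      Z := Z
      N := N
      BB := BB
      hX := fun K hK => ((hmem K).mp hK).1.1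
      hins := fun K hK R hR hc => ((hmem K).mp hK).1.2 R hR (by omega)
      hatt := by
        intro K hK R hR hd
        have hK' := (hmem K).mp hK
        rw [Finset.not_disjoint_iff] at hd
        obtain ⟨v, hvK, hvR⟩ := hd
        exact hI K hK'.2.2.2 hK'.1 hK'.2.1 v hvK R hR hvR
      hbig := fun K hK => by
        have := hbig K ((hmem K).mp hK).2.1
        omega }
  have hsplit : ∀ K₁ ∈ BB, ∀ K₂ ∈ BB, K₁ ≠ K₂ → ∃ R ⊆ X ∪ Z, (nb a (X ∪ Z) R).card < 2 * N ∧
      ((¬ Disjoint K₁ R ∧ Disjoint K₂ R) ∨ (¬ Disjoint K₂ R ∧ Disjoint K₁ R)) := by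
        intro K₁ h₁ K₂ h₂ hne
        have h₁' := (hmem K₁).mp h₁
        have h₂' := (hmem K₂).mp h₂
        have hnot : ¬ Insep a Z (2 * N) X (K₁ ∪ K₂) := by
          intro h
          apply hne
          have hT12 := Finset.union_subset h₁'.2.2.2 h₂'.2.2.2
          rw [← h₁'.2.2.1 _ hT12 h Finset.subset_union_left]
          exact h₂'.2.2.1 _ hT12 h Finset.subset_union_right
        unfold Insep at hnot
        push Not at hnot
        obtain ⟨R, hR, hc, hd, hs⟩ := hnot (Finset.union_subset h₁'.1.1 h₂'.1.1)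
        refine ⟨R, hR, hc, ?_⟩
        rw [Finset.disjoint_union_left] at hd
        rcases h₁'.1.2 R hR hc with a1 | a1
        · rcases h₂'.1.2 R hR hc with a2 | a2
          · exact absurd ⟨a1, a2⟩ hd
          · exact Or.inr ⟨fun h => hd ⟨a1, h⟩, a1⟩
        · rcases h₂'.1.2 R hR hc with a2 | a2
          · exact Or.inl ⟨fun h => hd ⟨h, a2⟩, a2⟩
          · exact absurd (Finset.union_subset a1 a2) hs
  obtain ⟨K0, hK0T, hK0, hr0⟩ := hex
  obtain ⟨K1, hK1, -⟩ := hcover K0 hK0T hK0 hr0
  obtain ⟨K, hK, x, hxK, hnc'⟩ := exists_noncritical {()} (fun _ => C) (N := N)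
    (fun _ _ => rfl) (fun _ _ => rfl) (fun K hK => ((hmem K).mp hK).1.2) (fun K hK => by
      have := hbig K ((hmem K).mp hK).2.1
      rw [Finset.card_singleton]
      omega) hsplit (by omega) ⟨K1, hK1⟩
  have hnc : ∀ R, C.Tight R → x ∉ C.g R := hnc' () (Finset.mem_singleton_self _)
  have hK' := (hmem K).mp hK
  have hxX : x ∈ X := hK'.1.1 hxK
  refine ⟨x, hxX, hK'.2.2.2 hxK, hI K hK'.2.2.2 hK'.1 hK'.2.1 x hxK, ?_⟩
  intro L hLT hL hrL v hv R hR hvR
  by_contra hlt
  push Not at hlt
  obtain ⟨L', hL', hLL'⟩ := hcover L hLT hL.of_erase hrL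
  have hL'' := (hmem L').mp hL'
  have hRX : R ⊆ X := hR.trans (Finset.erase_subset _ _)
  have hge : N ≤ (nb a (X ∪ Z) R).card :=
    hI L' hL''.2.2.2 hL''.1 hL''.2.1 v (hLL' hv) R hRX hvR
  have hsub : nb a (X ∪ Z) R ⊆ insert x (nb a (X.erase x ∪ Z) R) := by
    intro y hy
    rw [mem_nb] at hy
    rw [Finset.mem_insert]
    by_cases hyx : y = x
    · exact Or.inl hyx
    · right
      refine mem_nb.mpr ⟨?_, hy.2.1, hy.2.2⟩
      rcases Finset.mem_union.mp hy.1 with h | h
      · exact Finset.mem_union_left _ (Finset.mem_erase.mpr ⟨hyx, h⟩)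
      · exact Finset.mem_union_right _ h
  have hc1 := (Finset.card_le_card hsub).trans (Finset.card_insert_le _ _)
  have hxnb : x ∈ nb a (X ∪ Z) R := by
    by_contra hx
    have : nb a (X ∪ Z) R ⊆ nb a (X.erase x ∪ Z) R := by
      intro y hy
      rcases Finset.mem_insert.mp (hsub hy) with h | h
      · rw [h] at hy
        exact absurd hy hx
      · exact h
    have := Finset.card_le_card this
    omega
  have htight : C.Tight R := by
    refine ⟨hRX, ?_, ⟨L', C.mem_cl.mpr ⟨hL', ?_⟩⟩⟩
    · change (nb a (X ∪ Z) R).card = N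
      omega
    · rw [Finset.not_disjoint_iff]
      exact ⟨v, hLL' hv, hvR⟩
  exact hnc R htight hxnb

/-- The order theorem with vertices outside `T` which are kept. -/
theorem order_junk {a : V → V → Prop} {T X Z : Finset V} {N : ℕ} (hN : 0 < N)
    {Rich : Finset V → Prop} (hmono : ∀ K K' : Finset V, K ⊆ K' → Rich K → Rich K')
    (hbig : ∀ K, Rich K → 5 * N < K.card) (hT : ∀ v ∈ T, Att a Z N X v) :
    ∃ Ξ ⊆ X, X \ Ξ ⊆ T ∧ (∀ K ⊆ T, Insep a Z (2 * N) Ξ K → ¬ Rich K) ∧ Built a Z N Ξ X := by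
  have key : ∀ n : ℕ, ∀ X : Finset V, X.card = n →
      (∀ K ⊆ T, Insep a Z (2 * N) X K → Rich K → ∀ v ∈ K, Att a Z N X v) →
      ∃ Ξ ⊆ X, X \ Ξ ⊆ T ∧ (∀ K ⊆ T, Insep a Z (2 * N) Ξ K → ¬ Rich K) ∧
        Built a Z N Ξ X := by
    intro n
    induction n with
    | zero =>
      intro X hX _
      refine ⟨X, Finset.Subset.refl _, by simp, fun K _ hK hr => ?_, Built.base⟩
      have h1 := hbig K hr
      have h2 := Finset.card_le_card hK.1
      omega
    | succ n ih =>
      intro X hX hI
      by_cases hex : ∃ K ⊆ T, Insep a Z (2 * N) X K ∧ Rich K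
      · obtain ⟨x, hx, hxT, hax, hI'⟩ := step_junk hN hmono hbig hI hex
        obtain ⟨Ξ, hΞ, h0, h1, h2⟩ := ih (X.erase x) (by
          rw [Finset.card_erase_of_mem hx, hX]
          rfl) hI'
        refine ⟨Ξ, hΞ.trans (Finset.erase_subset _ _), ?_, h1, ?_⟩
        · intro y hy
          rw [Finset.mem_sdiff] at hy
          by_cases hyx : y = x
          · rw [hyx]
            exact hxT
          · exact h0 (Finset.mem_sdiff.mpr ⟨Finset.mem_erase.mpr ⟨hyx, hy.1⟩, hy.2⟩)
        · have h3 : insert x (X.erase x) = X := Finset.insert_erase hx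
          rw [← h3]
          refine Built.add h2 (Finset.notMem_erase _ _) ?_
          rw [h3]
          exact hax
      · push Not at hex
        exact ⟨X, Finset.Subset.refl _, by simp, hex, Built.base⟩
  exact key X.card X rfl (fun K hKT _ _ v hv => hT v (hKT hv))

/-- Halving. -/
theorem halving_junk {a : V → V → Prop} (Z : Finset V) {T Ξ : Finset V} {m f q : ℕ}
    (hTΞ : T ⊆ Ξ) (h : ¬ LCol a m T f) :
    ∃ K ⊆ T, Insep a Z q Ξ K ∧ ¬ LCol a m K (f - 2 * (q - 1)) := by
  -- a minimal bad set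
  have hfin : (T.powerset.filter (fun W => ¬ LCol a m W f)).Nonempty :=
    ⟨T, Finset.mem_filter.mpr ⟨Finset.mem_powerset.mpr (Finset.Subset.refl _), h⟩⟩
  obtain ⟨W, hW, hWmin⟩ := Finset.exists_min_image _ Finset.card hfin
  rw [Finset.mem_filter, Finset.mem_powerset] at hW
  obtain ⟨hWT, hWbad⟩ := hW
  have hWΞ : W ⊆ Ξ := hWT.trans hTΞ
  have hmin : ∀ W' ⊂ W, LCol a m W' f := by
    intro W' hW'
    by_contra hb
    have h1 := hWmin W' (Finset.mem_filter.mpr
      ⟨Finset.mem_powerset.mpr (hW'.1.trans hWT), hb⟩)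
    have h2 := Finset.card_lt_card hW'
    omega
  have key : ∀ n : ℕ, ∀ K : Finset V, K.card = n → K ⊆ W → K.Nonempty → ∀ B ⊆ W,
      Disjoint B K → Guard a W K B → B.card ≤ 2 * (q - 1) →
      ∃ K' ⊆ T, Insep a Z q Ξ K' ∧ ¬ LCol a m K' (f - 2 * (q - 1)) := by
    intro n
    induction n using Nat.strong_induction_on with
    | _ n ih =>
      intro K hKn hKW hKne B hBW hd hG hBc
      by_cases hins : Insep a Z q Ξ K
      · refine ⟨K, hKW.trans hWT, hins, fun hcol => ?_⟩
        exact tough hWbad hmin hKW hKne hd hG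
          (hcol.mono (le_refl _) (Finset.Subset.refl _) (by omega))
      · unfold Insep at hins
        push Not at hins
        obtain ⟨R, hR, hRc, hR1, hR2⟩ := hins (hKW.trans hWΞ)
        set NR := nb a (Ξ ∪ Z) R with hNR
        have hexit : ∀ u ∈ R, ∀ v ∈ W, v ∉ R → a u v → v ∈ NR := fun u hu v hv hvR huv =>
          mem_nb.mpr ⟨Finset.mem_union_left _ (hWΞ hv), hvR, u, hu, huv⟩
        have hNRd : ∀ y ∈ NR, y ∉ R := fun y hy => (mem_nb.mp hy).2.1
        have hsum : (B ∩ R).card + (B \ (R ∪ NR)).card ≤ B.card := by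
          rw [← Finset.card_union_of_disjoint]
          · exact Finset.card_le_card (Finset.union_subset Finset.inter_subset_left
              Finset.sdiff_subset)
          · rw [Finset.disjoint_left]
            intro y hy hy'
            exact (Finset.mem_sdiff.mp hy').2 (Finset.mem_union_left _
              (Finset.mem_inter.mp hy).2)
        rw [Finset.not_disjoint_iff] at hR1
        obtain ⟨k1, hk1, hk1R⟩ := hR1
        rw [Finset.not_subset] at hR2
        obtain ⟨k2, hk2, hk2R⟩ := hR2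
        have hk2R' : k2 ∉ R := fun h => hk2R (Finset.mem_union_left _ h)
        have hNRW : (NR ∩ W).card ≤ q - 1 := by
          have := Finset.card_le_card (Finset.inter_subset_left (s₁ := NR) (s₂ := W))
          omega
        rcases Nat.lt_or_ge (B ∩ R).card (q - 1 + 1) with hcase | hcase
        · -- the side inside `R`
          have hlt : (K ∩ R).card < n := by
            rw [← hKn]
            apply Finset.card_lt_card
            rw [Finset.ssubset_iff_of_subset Finset.inter_subset_left]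
            exact ⟨k2, hk2, fun h => hk2R' (Finset.mem_inter.mp h).2⟩
          refine ih _ hlt (K ∩ R) rfl (Finset.inter_subset_left.trans hKW)
            ⟨k1, Finset.mem_inter.mpr ⟨hk1, hk1R⟩⟩ ((NR ∩ W) ∪ (B ∩ R))
            (Finset.union_subset Finset.inter_subset_right
              (Finset.inter_subset_left.trans hBW)) ?_ ?_ ?_
          · rw [Finset.disjoint_union_left]
            refine ⟨?_, hd.mono Finset.inter_subset_left Finset.inter_subset_left⟩
            rw [Finset.disjoint_left]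
            intro y hy hy'
            exact hNRd y (Finset.mem_inter.mp hy).1 (Finset.mem_inter.mp hy').2
          · intro S hS hSW hSK hSB
            obtain ⟨s, hs⟩ := hSK
            rw [Finset.mem_inter, Finset.mem_inter] at hs
            have hSR : S ⊆ R := by
              by_contra hcon
              rw [Finset.not_subset] at hcon
              obtain ⟨t, htS, htR⟩ := hcon
              obtain ⟨u, hu, v, hv, hvn, huv⟩ := hS.2 (S ∩ R) Finset.inter_subset_left
                ⟨s, Finset.mem_inter.mpr ⟨hs.1, hs.2.2⟩⟩ (fun h => htR (by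
                  rw [← h] at htS
                  exact (Finset.mem_inter.mp htS).2))
              have hvR : v ∉ R := fun h => hvn (Finset.mem_inter.mpr ⟨hv, h⟩)
              have := hexit u (Finset.mem_inter.mp hu).2 v (hSW hv) hvR huv
              exact Finset.disjoint_left.mp hSB hv (Finset.mem_union_left _
                (Finset.mem_inter.mpr ⟨this, hSW hv⟩))
            have hSB' : Disjoint S B := by
              rw [Finset.disjoint_left]
              intro y hy hyB
              exact Finset.disjoint_left.mp hSB hy (Finset.mem_union_right _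
                (Finset.mem_inter.mpr ⟨hyB, hSR hy⟩))
            have := hG S hS hSW ⟨s, Finset.mem_inter.mpr ⟨hs.1, hs.2.1⟩⟩ hSB'
            intro y hy
            exact Finset.mem_inter.mpr ⟨this hy, hSR hy⟩
          · have := Finset.card_union_le (NR ∩ W) (B ∩ R)
            omega
        · -- the side outside
          have hlt : (K \ (R ∪ NR)).card < n := by
            rw [← hKn]
            apply Finset.card_lt_card
            rw [Finset.ssubset_iff_of_subset Finset.sdiff_subset]
            exact ⟨k1, hk1, fun h => (Finset.mem_sdiff.mp h).2 (Finset.mem_union_left _ hk1R)⟩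
          refine ih _ hlt (K \ (R ∪ NR)) rfl (Finset.sdiff_subset.trans hKW)
            ⟨k2, Finset.mem_sdiff.mpr ⟨hk2, hk2R⟩⟩ ((NR ∩ W) ∪ (B \ (R ∪ NR)))
            (Finset.union_subset Finset.inter_subset_right
              (Finset.sdiff_subset.trans hBW)) ?_ ?_ ?_
          · rw [Finset.disjoint_union_left]
            refine ⟨?_, hd.mono Finset.sdiff_subset Finset.sdiff_subset⟩
            rw [Finset.disjoint_left]
            intro y hy hy'
            exact (Finset.mem_sdiff.mp hy').2 (Finset.mem_union_right _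
              (Finset.mem_inter.mp hy).1)
          · intro S hS hSW hSK hSB
            obtain ⟨s, hs⟩ := hSK
            rw [Finset.mem_inter, Finset.mem_sdiff] at hs
            have hSR : ∀ y ∈ S, y ∉ R := by
              intro t htS htR
              obtain ⟨u, hu, v, hv, hvn, huv⟩ := hS.2 (S ∩ R) Finset.inter_subset_left
                ⟨t, Finset.mem_inter.mpr ⟨htS, htR⟩⟩ (fun h => hs.2.2 (by
                  have h' := hs.1
                  rw [← h] at h'
                  exact Finset.mem_union_left _ (Finset.mem_inter.mp h').2))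
              have hvR : v ∉ R := fun h => hvn (Finset.mem_inter.mpr ⟨hv, h⟩)
              have := hexit u (Finset.mem_inter.mp hu).2 v (hSW hv) hvR huv
              exact Finset.disjoint_left.mp hSB hv (Finset.mem_union_left _
                (Finset.mem_inter.mpr ⟨this, hSW hv⟩))
            have hSN : ∀ y ∈ S, y ∉ R ∪ NR := by
              intro y hy hyR
              rcases Finset.mem_union.mp hyR with h5 | h5
              · exact hSR y hy h5
              · exact Finset.disjoint_left.mp hSB hy (Finset.mem_union_left _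
                  (Finset.mem_inter.mpr ⟨h5, hSW hy⟩))
            have hSB' : Disjoint S B := by
              rw [Finset.disjoint_left]
              intro y hy hyB
              exact Finset.disjoint_left.mp hSB hy (Finset.mem_union_right _
                (Finset.mem_sdiff.mpr ⟨hyB, hSN y hy⟩))
            have := hG S hS hSW ⟨s, Finset.mem_inter.mpr ⟨hs.1, hs.2.1⟩⟩ hSB'
            intro y hy
            exact Finset.mem_sdiff.mpr ⟨this hy, hSN y hy⟩
          · have := Finset.card_union_le (NR ∩ W) (B \ (R ∪ NR))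
            omega
  have hWne : W.Nonempty := by
    by_contra hemp
    rw [Finset.not_nonempty_iff_eq_empty] at hemp
    apply hWbad
    intro P F _ _
    refine ⟨fun _ => 0, by simp [hemp], fun i => ?_⟩
    intro S hS hne
    obtain ⟨s, hs⟩ := hne
    have := Finset.mem_filter.mp (hS hs)
    rw [hemp] at this
    exact absurd this.1 (Finset.notMem_empty _)
  exact key W.card W rfl (Finset.Subset.refl _) hWne ∅ (Finset.empty_subset _)
    (Finset.disjoint_empty_left _) (fun S _ hSW _ _ => hSW) (by simp)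

variable {a : V → V → Prop} {Z : Finset V} {N : ℕ} {T Ξ : Finset V}

/-- Colouring of the layers. -/
theorem layer_colour_junk {C : Finset V} (hC : T \ Ξ ⊆ C) (hΞ : Ξ ⊆ T)
    (hd : Disjoint T Z) {m k : ℕ} {P0 : Finset ℕ}
    {Pp : ℕ → Finset ℕ} (hPp : ∀ j, k ≤ (Pp j).card) {F : V → Finset ℕ}
    (hF : ∀ v ∈ C, (F v).card ≤ m)
    (hk : ∀ W ⊆ C, (∀ w ∈ W, Att a Z N (insert w (T \ W)) w) → LCol a (m + N) W k)
    (h0 : ∃ c : V → ℕ, (∀ v ∈ C ∩ Ξ, c v ∈ P0 ∧ c v ∉ F v) ∧
      ∀ i, Acyc a ((C ∩ Ξ).filter (fun v => c v = i))) (i : ℕ) :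
    ∃ c : V → ℕ, (∀ v ∈ C ∩ Ξ, c v ∈ P0 ∧ c v ∉ F v) ∧
      (∀ l, Acyc a ((C ∩ Ξ).filter (fun v => c v = l))) ∧
      ∀ j < i, (∀ v ∈ Q a Z N T Ξ (j + 1) \ Q a Z N T Ξ j, c v ∈ Pp (j % 2) ∧ c v ∉ F v ∧
          ∀ y ∈ Q a Z N T Ξ (j - 1) \ Ξ, a v y → c v ≠ c y) ∧
        ∀ l, Acyc a ((Q a Z N T Ξ (j + 1) \ Q a Z N T Ξ j).filter (fun v => c v = l)) := by
  induction i with
  | zero =>
    obtain ⟨c, h1, h2⟩ := h0
    exact ⟨c, h1, h2, fun j hj => absurd hj (Nat.not_lt_zero j)⟩
  | succ i ih =>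
    obtain ⟨c, h1, h2, h3⟩ := ih
    set L := Q a Z N T Ξ (i + 1) \ Q a Z N T Ξ i with hL
    have hLT : L ⊆ T := Finset.sdiff_subset.trans (Q_sub hΞ _)
    have hLC : L ⊆ C := fun v hv => hC (Finset.mem_sdiff.mpr ⟨hLT hv, fun h =>
      (Finset.mem_sdiff.mp hv).2 (Q_mono (Nat.zero_le i) h)⟩)
    have hLatt : ∀ w ∈ L, Att a Z N (insert w (Q a Z N T Ξ i)) w := by
      intro w hw
      rw [hL, Finset.mem_sdiff, Q_succ, Finset.mem_union, Finset.mem_filter] at hw
      exact (hw.1.resolve_left hw.2).2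
    have hgood : ∀ w ∈ L, Att a Z N (insert w (T \ L)) w := by
      intro w hw
      refine (hLatt w hw).mono ?_ (Finset.mem_insert_self _ _) ?_
      · apply Finset.insert_subset_insert
        intro y hy
        exact Finset.mem_sdiff.mpr ⟨Q_sub hΞ i hy, fun h => (Finset.mem_sdiff.mp h).2 hy⟩
      · exact hd.mono_left (Finset.insert_subset (hLT hw) Finset.sdiff_subset)
    set F' : V → Finset ℕ := fun w =>
      F w ∪ ((Q a Z N T Ξ (i - 1) \ Ξ).filter (fun y => a w y)).image c with hF'
    have hF'c : ∀ w ∈ L, (F' w).card ≤ m + N := by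
      intro w hw
      have e1 := Finset.card_union_le (F w)
        (((Q a Z N T Ξ (i - 1) \ Ξ).filter (fun y => a w y)).image c)
      have e2 := hF w (hLC hw)
      have e3 : (((Q a Z N T Ξ (i - 1) \ Ξ).filter (fun y => a w y)).image c).card ≤
          ((Q a Z N T Ξ (i - 1) \ Ξ).filter (fun y => a w y)).card := Finset.card_image_le
      have e4 : ((Q a Z N T Ξ (i - 1) \ Ξ).filter (fun y => a w y)).card ≤ N := by
        rcases Nat.eq_zero_or_pos i with hi | hi
        · subst hi
          have : (Q a Z N T Ξ (0 - 1) \ Ξ) = ∅ := by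
            change Ξ \ Ξ = ∅
            exact Finset.sdiff_self Ξ
          rw [this]
          simp
        · have hwi : w ∉ Q a Z N T Ξ ((i - 1) + 1) := by
            have : i - 1 + 1 = i := by omega
            rw [this]
            exact (Finset.mem_sdiff.mp hw).2
          exact (out_small hΞ hd (hLT hw) hwi).le
      change (F w ∪ _).card ≤ _
      omega
    obtain ⟨c', h4, h5⟩ := hk L hLC hgood (Pp (i % 2)) F' (hPp _) hF'c
    have hQL : ∀ v ∈ Q a Z N T Ξ i, v ∉ L := fun v hv h => (Finset.mem_sdiff.mp h).2 hv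
    have hΞL : ∀ v ∈ Ξ, v ∉ L := fun v hv => hQL v (Q_mono (Nat.zero_le i) hv)
    set d : V → ℕ := fun v => if v ∈ L then c' v else c v with hdd
    have hd1 : ∀ v ∈ L, d v = c' v := fun v hv => if_pos hv
    have hd2 : ∀ v, v ∉ L → d v = c v := fun v hv => if_neg hv
    have hold : ∀ (X : Finset V), (∀ v ∈ X, v ∉ L) → ∀ l,
        X.filter (fun v => d v = l) = X.filter (fun v => c v = l) := by
      intro X hX l
      apply Finset.filter_congr
      intro v hv
      rw [hd2 v (hX v hv)]
    have hsubm : ∀ j, Q a Z N T Ξ (j - 1) ⊆ Q a Z N T Ξ j := fun j => Q_mono (by omega)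
    refine ⟨d, ?_, ?_, ?_⟩
    · intro v hv
      rw [hd2 v (hΞL v (Finset.mem_inter.mp hv).2)]
      exact h1 v hv
    · intro l
      rw [hold (C ∩ Ξ) (fun v hv => hΞL v (Finset.mem_inter.mp hv).2) l]
      exact h2 l
    · intro j hj
      rcases Nat.lt_or_ge j i with hji | hji
      · obtain ⟨h6, h7⟩ := h3 j hji
        have hXL : ∀ v ∈ Q a Z N T Ξ (j + 1) \ Q a Z N T Ξ j, v ∉ L := fun v hv =>
          hQL v (Q_mono (by omega) (Finset.mem_sdiff.mp hv).1)
        refine ⟨fun v hv => ?_, fun l => ?_⟩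
        · rw [hd2 v (hXL v hv)]
          obtain ⟨h8, h9, h10⟩ := h6 v hv
          refine ⟨h8, h9, fun y hy hvy => ?_⟩
          have hyL : y ∉ L := hQL y (Q_mono (by omega) (Finset.mem_sdiff.mp hy).1)
          rw [hd2 y hyL]
          exact h10 y hy hvy
        · rw [hold _ hXL l]
          exact h7 l
      · have hji' : j = i := by omega
        subst hji'
        refine ⟨fun v hv => ?_, fun l => ?_⟩
        · have hv' : v ∈ L := hv
          rw [hd1 v hv']
          obtain ⟨h8, h9⟩ := h4 v hv'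
          have h9' : c' v ∉ F v ∪
              ((Q a Z N T Ξ (j - 1) \ Ξ).filter (fun y => a v y)).image c := h9
          rw [Finset.mem_union] at h9'
          push Not at h9'
          refine ⟨h8, h9'.1, fun y hy hvy => ?_⟩
          have hyL : y ∉ L := hQL y (hsubm j (Finset.mem_sdiff.mp hy).1)
          rw [hd2 y hyL]
          intro heq
          apply h9'.2
          rw [heq]
          exact Finset.mem_image_of_mem c (Finset.mem_filter.mpr ⟨hy, hvy⟩)
        · have : (Q a Z N T Ξ (j + 1) \ Q a Z N T Ξ j).filter (fun v => d v = l) =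
              L.filter (fun v => c' v = l) := by
            apply Finset.filter_congr
            intro v hv
            rw [hd1 v hv]
          rw [this]
          exact h5 l

/-- The layers put together. -/
theorem layers_junk {C : Finset V} (hCT : C ⊆ T) (hC : T \ Ξ ⊆ C) (hΞ : Ξ ⊆ T)
    (hd : Disjoint T Z) (hB : Built a Z N Ξ T) {m k p : ℕ}
    (hcol : LCol a m (C ∩ Ξ) p)
    (hk : ∀ W ⊆ C, (∀ w ∈ W, Att a Z N (insert w (T \ W)) w) → LCol a (m + N) W k) :
    LCol a m C (p + 2 * k) := by
  intro P F hP hF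
  obtain ⟨P0, hP0, hP0c⟩ := Finset.exists_subset_card_eq (s := P) (n := p) (by omega)
  have hRc : 2 * k ≤ (P \ P0).card := by
    rw [Finset.card_sdiff_of_subset hP0]
    omega
  obtain ⟨P1, hP1, hP1c⟩ := Finset.exists_subset_card_eq (s := P \ P0) (n := k) (by omega)
  have hP2c : k ≤ ((P \ P0) \ P1).card := by
    rw [Finset.card_sdiff_of_subset hP1]
    omega
  set Pp : ℕ → Finset ℕ := fun j => if j = 0 then P1 else (P \ P0) \ P1 with hPp
  have hPpsub : ∀ j, Pp j ⊆ P \ P0 := by
    intro j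
    by_cases hj : j = 0
    · simp only [hPp, if_pos hj]
      exact hP1
    · simp only [hPp, if_neg hj]
      exact Finset.sdiff_subset
  have hPpdisj : ∀ j j' : ℕ, ∀ x, x ∈ Pp (j % 2) → x ∈ Pp (j' % 2) → j % 2 = j' % 2 := by
    intro j j' x hx hx'
    rcases Nat.mod_two_eq_zero_or_one j with h | h <;>
      rcases Nat.mod_two_eq_zero_or_one j' with h' | h'
    · omega
    · exfalso
      simp only [hPp, h, h', if_pos, if_neg (by omega : ¬ ((1 : ℕ) = 0))] at hx hx'
      exact (Finset.mem_sdiff.mp hx').2 hx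
    · exfalso
      simp only [hPp, h, h', if_pos, if_neg (by omega : ¬ ((1 : ℕ) = 0))] at hx hx'
      exact (Finset.mem_sdiff.mp hx).2 hx'
    · omega
  obtain ⟨M, hM⟩ := Q_exhaust hΞ hd hB
  obtain ⟨c, h1, h2, h3⟩ := layer_colour_junk hC hΞ hd (k := k) (Pp := Pp) (P0 := P0) (fun j => by
    by_cases hj : j = 0
    · simp only [hPp, if_pos hj]
      omega
    · simp only [hPp, if_neg hj]
      exact hP2c) hF hk (hcol P0 F (by omega) (fun v hv => hF v (Finset.mem_inter.mp hv).1)) M
  -- the layer of a vertex outside `Ξ`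
  have hlay : ∀ v ∈ T, v ∉ Ξ → ∃ j < M, v ∈ Q a Z N T Ξ (j + 1) \ Q a Z N T Ξ j := by
    intro v hv hvΞ
    have hex : ∃ j, v ∈ Q a Z N T Ξ j := ⟨M, by rw [hM]; exact hv⟩
    have hj := Nat.find_spec hex
    have hjM : Nat.find hex ≤ M := Nat.find_min' hex (by rw [hM]; exact hv)
    rcases Nat.eq_zero_or_pos (Nat.find hex) with h0 | h0
    · rw [h0] at hj
      exact absurd hj hvΞ
    · refine ⟨Nat.find hex - 1, by omega, ?_⟩
      have e : Nat.find hex - 1 + 1 = Nat.find hex := by omega
      rw [e]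
      exact Finset.mem_sdiff.mpr ⟨hj, Nat.find_min hex (by omega)⟩
  refine ⟨c, ?_, ?_⟩
  · intro v hv
    by_cases hvΞ : v ∈ Ξ
    · have h1v := h1 v (Finset.mem_inter.mpr ⟨hv, hvΞ⟩)
      exact ⟨hP0 h1v.1, h1v.2⟩
    · obtain ⟨j, hj, hvj⟩ := hlay v (hCT hv) hvΞ
      have h4 := (h3 j hj).1 v hvj
      exact ⟨(Finset.mem_sdiff.mp (hPpsub _ h4.1)).1, h4.2.1⟩
  · intro l
    by_contra hna
    unfold Pool.Agent.Mader.Acyc at hna
    push Not at hna
    obtain ⟨Y, hY, hYne, hYs⟩ := hna
    have hYm : ∀ v ∈ Y, v ∈ C ∧ c v = l := fun v hv => Finset.mem_filter.mp (hY hv)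
    have hnotP0 : ∀ v ∈ Y, v ∉ Ξ → l ∉ P0 := by
      intro v hv hvΞ hl
      obtain ⟨j, hj, hvj⟩ := hlay v (hCT (hYm v hv).1) hvΞ
      have h4 := ((h3 j hj).1 v hvj).1
      rw [(hYm v hv).2] at h4
      exact (Finset.mem_sdiff.mp (hPpsub _ h4)).2 hl
    by_cases hex : ∃ v ∈ Y, v ∈ Ξ
    · obtain ⟨v, hv, hvΞ⟩ := hex
      have hl : l ∈ P0 := by
        have := (h1 v (Finset.mem_inter.mpr ⟨(hYm v hv).1, hvΞ⟩)).1
        rw [(hYm v hv).2] at this
        exact this
      have hYΞ : ∀ w ∈ Y, w ∈ Ξ := by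
        intro w hw
        by_contra hwΞ
        exact hnotP0 w hw hwΞ hl
      obtain ⟨z, hz, hz'⟩ := h2 l Y (fun w hw => Finset.mem_filter.mpr
        ⟨Finset.mem_inter.mpr ⟨(hYm w hw).1, hYΞ w hw⟩, (hYm w hw).2⟩) hYne
      obtain ⟨y, hy, hzy⟩ := hYs z hz
      exact hz' y hy hzy
    · push Not at hex
      have hlayY : ∀ v ∈ Y, ∃ j, j < M ∧ v ∈ Q a Z N T Ξ (j + 1) \ Q a Z N T Ξ j :=
        fun v hv => hlay v (hCT (hYm v hv).1) (hex v hv)
      choose! lev hlevM hlev using hlayY
      obtain ⟨v, hv, hmax⟩ := Finset.exists_max_image Y lev hYne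
      set j := lev v with hj
      set Yj := Y.filter (fun w => w ∈ Q a Z N T Ξ (j + 1) \ Q a Z N T Ξ j) with hYj
      obtain ⟨z, hz, hz'⟩ := (h3 j (hlevM v hv)).2 l Yj (by
        intro w hw
        rw [hYj, Finset.mem_filter] at hw
        exact Finset.mem_filter.mpr ⟨hw.2, (hYm w hw.1).2⟩)
        ⟨v, Finset.mem_filter.mpr ⟨hv, hlev v hv⟩⟩
      rw [hYj, Finset.mem_filter] at hz
      obtain ⟨y, hy, hzy⟩ := hYs z hz.1
      have h4 := (h3 j (hlevM v hv)).1 z hz.2
      have h5 := (h3 (lev y) (hlevM y hy)).1 y (hlev y hy)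
      have h6 := hmax y hy
      have hpar : j % 2 = lev y % 2 := by
        apply hPpdisj j (lev y) l
        · have := h4.1
          rw [(hYm z hz.1).2] at this
          exact this
        · have := h5.1
          rw [(hYm y hy).2] at this
          exact this
      rcases Nat.lt_or_ge (lev y) j with h7 | h7
      · have h8 : lev y + 1 ≤ j - 1 := by omega
        have h9 : y ∈ Q a Z N T Ξ (j - 1) \ Ξ :=
          Finset.mem_sdiff.mpr ⟨Q_mono h8 (Finset.mem_sdiff.mp (hlev y hy)).1, hex y hy⟩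
        exact h4.2.2 y h9 hzy ((hYm z hz.1).2.trans (hYm y hy).2.symm)
      · have h8 : lev y = j := by omega
        have h9 := hlev y hy
        rw [h8] at h9
        exact hz' y (Finset.mem_filter.mpr ⟨hy, h9⟩) hzy

/-- The one-sided core theorem: `T` attached to `Z` in `X`, every `W ⊆ T` which is attached to
`Z` outside itself in `X` has list measure at most `k`. Then `T` has measure at most
`9 N + m + 2 k`. The vertices of `X - T` are neither coloured nor deleted. -/
theorem one_sided_junk {X : Finset V} (hirr : ∀ v, ¬ a v v) (hN : 0 < N) (hTX : T ⊆ X)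
    (hd : Disjoint X Z) {m k : ℕ} (hT : ∀ v ∈ T, Att a Z N X v)
    (hk : ∀ W ⊆ T, (∀ w ∈ W, Att a Z N (insert w (X \ W)) w) → LCol a (m + N) W k) :
    LCol a m T (9 * N + m + 2 * k) := by
  obtain ⟨Ξ, hΞ, hΞT, hno, hB⟩ := order_junk (a := a) (T := T) (X := X) (Z := Z) hN
    (Rich := fun K => ¬ LCol a m K (5 * N + m))
    (fun K K' hKK' hK h => hK (h.mono (le_refl _) hKK' (le_refl _)))
    (fun K hK => by
      have := card_of_not_LCol hirr hK
      omega) hT
  have hcol : LCol a m (T ∩ Ξ) (9 * N + m) := by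
    by_contra hbad
    obtain ⟨K, hKT, hKi, hKb⟩ := halving_junk Z (q := 2 * N) Finset.inter_subset_right hbad
    apply hno K (hKT.trans Finset.inter_subset_left) hKi
    intro h
    exact hKb (h.mono (le_refl _) (Finset.Subset.refl _) (by omega))
  exact layers_junk hTX hΞT hΞ hd hB hcol hk

end Pool.Agent.OrdThm
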