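import Pool.Agent.OrdThm.Region

/-! Critical vertices of rich inseparable sets: the counting argument (helper92). -/

open Classical

namespace Pool.Agent.OrdThm

universe u

variable {V : Type u}

/-- The setting: a finite family `BB` of inseparable sets of `X`, all attached. -/
structure Ctx (V : Type u) where
  a : V → V → Prop
  X : Finset V
  Z : Finset V
  N : ℕ
  BB : Finset (Finset V)
  hX : ∀ K ∈ BB, K ⊆ X
  hins : ∀ K ∈ BB, ∀ R ⊆ X ∪ Z, (nb a (X ∪ Z) R).card ≤ N →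
    Disjoint K R ∨ K ⊆ R ∪ nb a (X ∪ Z) R
  hatt : ∀ K ∈ BB, ∀ R ⊆ X, ¬ Disjoint K R → N ≤ (nb a (X ∪ Z) R).card
  hbig : ∀ K ∈ BB, 2 * N < K.card

namespace Ctx

variable (C : Ctx V)

/-- out-neighbours in the whole set `X ∪ Z` -/
noncomputable def g (R : Finset V) : Finset V := nb C.a (C.X ∪ C.Z) R

/-- the members of `BB` which meet `R` -/
noncomputable def cl (R : Finset V) : Finset (Finset V) :=
  C.BB.filter (fun K => ¬ Disjoint K R)

theorem mem_cl {K R : Finset V} : K ∈ C.cl R ↔ K ∈ C.BB ∧ ¬ Disjoint K R := by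
  unfold cl
  rw [Finset.mem_filter]

/-- tight region -/
def Tight (R : Finset V) : Prop := R ⊆ C.X ∧ (C.g R).card = C.N ∧ (C.cl R).Nonempty

theorem Tight.in_sub {C : Ctx V} {R : Finset V} (h : C.Tight R) {K : Finset V}
    (hK : K ∈ C.cl R) : K ⊆ R ∪ C.g R := by
  rw [mem_cl] at hK
  rcases C.hins K hK.1 R (h.1.trans Finset.subset_union_left) (le_of_eq h.2.1) with h1 | h1
  · exact absurd h1 hK.2
  · exact h1

theorem inter_meet {R S : Finset V} (hR : C.Tight R) (hS : C.Tight S) {K : Finset V}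
    (h1 : K ∈ C.cl R) (h2 : K ∈ C.cl S) : ¬ Disjoint K (R ∩ S) := by
  intro hd
  have hb := C.hbig K (C.mem_cl.mp h1).1
  have hsub : K ⊆ C.g R ∪ C.g S := by
    intro y hy
    rcases Finset.mem_union.mp (hR.in_sub h1 hy) with h3 | h3
    · rcases Finset.mem_union.mp (hS.in_sub h2 hy) with h4 | h4
      · exact absurd (Finset.mem_inter.mpr ⟨h3, h4⟩) (Finset.disjoint_left.mp hd hy)
      · exact Finset.mem_union_right _ h4
    · exact Finset.mem_union_left _ h3
  have h3 := (Finset.card_le_card hsub).trans (Finset.card_union_le _ _)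
  rw [hR.2.1, hS.2.1] at h3
  omega

/-- Tight regions with intersecting classes are closed under intersection and union; equality
in submodularity holds vertex by vertex. -/
theorem inter_union {R S : Finset V} (hR : C.Tight R) (hS : C.Tight S)
    (hne : (C.cl R ∩ C.cl S).Nonempty) :
    C.Tight (R ∩ S) ∧ C.Tight (R ∪ S) ∧ C.cl (R ∩ S) = C.cl R ∩ C.cl S ∧
      C.cl (R ∪ S) = C.cl R ∪ C.cl S ∧
      ∀ x ∈ C.g R, x ∉ C.g (R ∩ S) → x ∈ C.g (R ∪ S) ∧ x ∉ C.g S := by
  have e1 : C.cl (R ∩ S) = C.cl R ∩ C.cl S := by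
    ext K
    rw [Finset.mem_inter]
    constructor
    · intro h
      rw [mem_cl] at h
      exact ⟨C.mem_cl.mpr ⟨h.1, fun hd => h.2 (hd.mono_right Finset.inter_subset_left)⟩,
        C.mem_cl.mpr ⟨h.1, fun hd => h.2 (hd.mono_right Finset.inter_subset_right)⟩⟩
    · intro h
      exact C.mem_cl.mpr ⟨(C.mem_cl.mp h.1).1, C.inter_meet hR hS h.1 h.2⟩
  have e2 : C.cl (R ∪ S) = C.cl R ∪ C.cl S := by
    ext K
    rw [Finset.mem_union, mem_cl, mem_cl, mem_cl, Finset.disjoint_union_right]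
    tauto
  obtain ⟨K, hK⟩ := hne
  have hK' := hK
  rw [← e1] at hK
  have hKu : K ∈ C.cl (R ∪ S) := by
    rw [e2]
    exact Finset.mem_union_left _ (Finset.mem_inter.mp hK').1
  have hK1 := C.mem_cl.mp hK
  have hK2 := C.mem_cl.mp hKu
  have hi := C.hatt K hK1.1 (R ∩ S) (Finset.inter_subset_left.trans hR.1) hK1.2
  have hu := C.hatt K hK2.1 (R ∪ S) (Finset.union_subset hR.1 hS.1) hK2.2
  have hsm := nb_submod C.a (C.X ∪ C.Z) R S
  have hR2 := hR.2.1
  have hS2 := hS.2.1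
  unfold g at hR2 hS2
  refine ⟨⟨Finset.inter_subset_left.trans hR.1, ?_, ⟨K, hK⟩⟩,
    ⟨Finset.union_subset hR.1 hS.1, ?_, ⟨K, hKu⟩⟩, e1, e2, ?_⟩
  · unfold g
    omega
  · unfold g
    omega
  · intro x hx hx'
    exact nb_eq_case (by omega) hx hx'

/-- `R` witnesses that `x` is a port for `K`. -/
def Wit (K : Finset V) (x : V) (R : Finset V) : Prop :=
  C.Tight R ∧ Disjoint K R ∧ x ∈ C.g R

/-- a witness with minimal class -/
def MWit (K : Finset V) (x : V) (R : Finset V) : Prop :=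
  C.Wit K x R ∧ ∀ S, C.Wit K x S → C.cl S ⊆ C.cl R → C.cl S = C.cl R

theorem exists_mwit {K : Finset V} {x : V} {R : Finset V} (h : C.Wit K x R) :
    ∃ S, C.MWit K x S := by
  have hex : ∃ n, ∃ S, C.Wit K x S ∧ (C.cl S).card = n := ⟨_, R, h, rfl⟩
  obtain ⟨S, hS, hc⟩ := Nat.find_spec hex
  refine ⟨S, hS, fun S' hS' hsub => ?_⟩
  refine Finset.eq_of_subset_of_card_le hsub ?_
  rw [hc]
  exact Nat.find_min' hex ⟨S', hS', rfl⟩

/-- (P1) -/
theorem p1 {K : Finset V} (hK : K ∈ C.BB) {x : V} (hx : x ∈ K) {R S : Finset V}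
    (hR : C.MWit K x R) (hS : C.Tight S) (hne : (C.cl R ∩ C.cl S).Nonempty)
    (hns : ¬ C.cl R ⊆ C.cl S) : Disjoint K S ∧ C.Wit K x (R ∪ S) := by
  obtain ⟨hi, hu, e1, e2, hpt⟩ := C.inter_union hR.1.1 hS hne
  have hxi : x ∉ C.g (R ∩ S) := by
    intro hxi
    have h1 := hR.2 (R ∩ S) ⟨hi, hR.1.2.1.mono_right Finset.inter_subset_left, hxi⟩ (by
      rw [e1]
      exact Finset.inter_subset_left)
    rw [e1] at h1
    exact hns (Finset.inter_eq_left.mp h1)
  obtain ⟨h1, h2⟩ := hpt x hR.1.2.2 hxi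
  have hxS : x ∉ S := fun h3 => (mem_nb.mp h1).2.1 (Finset.mem_union_right _ h3)
  have hd : Disjoint K S := by
    by_contra hd
    rcases Finset.mem_union.mp (hS.in_sub (C.mem_cl.mpr ⟨hK, hd⟩) hx) with h3 | h3
    · exact hxS h3
    · exact h2 h3
  exact ⟨hd, hu, Finset.disjoint_union_right.mpr ⟨hR.1.2.1, hd⟩, h1⟩

/-- a class -/
def IsClass (Y : Finset (Finset V)) : Prop := ∃ R, C.Tight R ∧ C.cl R = Y

theorem IsClass.sub {C : Ctx V} {Y : Finset (Finset V)} (h : C.IsClass Y) : Y ⊆ C.BB := by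
  obtain ⟨R, -, rfl⟩ := h
  exact Finset.filter_subset _ _

theorem IsClass.ne {C : Ctx V} {Y : Finset (Finset V)} (h : C.IsClass Y) : Y.Nonempty := by
  obtain ⟨R, hR, rfl⟩ := h
  exact hR.2.2

theorem IsClass.union {C : Ctx V} {Y Y' : Finset (Finset V)} (h : C.IsClass Y)
    (h' : C.IsClass Y') (hne : (Y ∩ Y').Nonempty) : C.IsClass (Y ∪ Y') := by
  obtain ⟨R, hR, rfl⟩ := h
  obtain ⟨S, hS, rfl⟩ := h'
  obtain ⟨-, h1, -, h2, -⟩ := C.inter_union hR hS hne
  exact ⟨_, h1, h2⟩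

/-- Every class has a largest tight region. -/
theorem exists_top {Y : Finset (Finset V)} (hY : C.IsClass Y) :
    ∃ S, C.Tight S ∧ C.cl S = Y ∧ ∀ R, C.Tight R → C.cl R ⊆ Y → R ⊆ S := by
  have hfin : ∃ S ∈ C.X.powerset.filter (fun S => C.Tight S ∧ C.cl S = Y),
      ∀ S' ∈ C.X.powerset.filter (fun S => C.Tight S ∧ C.cl S = Y), S'.card ≤ S.card := by
    apply Finset.exists_max_image
    obtain ⟨R, hR, h⟩ := hY
    exact ⟨R, Finset.mem_filter.mpr ⟨Finset.mem_powerset.mpr hR.1, hR, h⟩⟩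
  obtain ⟨S, hS, hmax⟩ := hfin
  rw [Finset.mem_filter] at hS
  refine ⟨S, hS.2.1, hS.2.2, fun R hR hsub => ?_⟩
  obtain ⟨-, h1, -, h2, -⟩ := C.inter_union hR hS.2.1 (by
    rw [hS.2.2, Finset.inter_eq_left.mpr hsub]
    exact hR.2.2)
  have h3 := hmax (R ∪ S) (Finset.mem_filter.mpr ⟨Finset.mem_powerset.mpr h1.1, h1, by
    rw [h2, hS.2.2]
    exact Finset.union_eq_right.mpr hsub⟩)
  have h4 : S = R ∪ S := Finset.eq_of_subset_of_card_le Finset.subset_union_right h3
  rw [h4]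
  exact Finset.subset_union_left

/-- ports with minimal class inside `S`, any set of `BB` -/
noncomputable def Pa (S : Finset (Finset V)) : Finset V :=
  (C.X ∪ C.Z).filter (fun x => ∃ K ∈ C.BB, x ∈ K ∧ ∃ R, C.MWit K x R ∧ C.cl R ⊆ S)

/-- ports of the members of `S` with minimal class inside `S` -/
noncomputable def P (S : Finset (Finset V)) : Finset V :=
  (C.X ∪ C.Z).filter (fun x => ∃ K ∈ C.BB, K ∈ S ∧ x ∈ K ∧ ∃ R, C.MWit K x R ∧ C.cl R ⊆ S)

theorem mem_Pa {S : Finset (Finset V)} {x : V} :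
    x ∈ C.Pa S ↔ ∃ K ∈ C.BB, x ∈ K ∧ ∃ R, C.MWit K x R ∧ C.cl R ⊆ S := by
  unfold Pa
  rw [Finset.mem_filter]
  constructor
  · exact fun h => h.2
  · rintro ⟨K, hK, hx, h⟩
    exact ⟨Finset.mem_union_left _ (C.hX K hK hx), K, hK, hx, h⟩

theorem mem_P {S : Finset (Finset V)} {x : V} :
    x ∈ C.P S ↔ ∃ K ∈ C.BB, K ∈ S ∧ x ∈ K ∧ ∃ R, C.MWit K x R ∧ C.cl R ⊆ S := by
  unfold P
  rw [Finset.mem_filter]
  constructor
  · exact fun h => h.2
  · rintro ⟨K, hK, hKS, hx, h⟩
    exact ⟨Finset.mem_union_left _ (C.hX K hK hx), K, hK, hKS, hx, h⟩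

theorem card_Pa_le {Y : Finset (Finset V)} (hY : C.IsClass Y) :
    (C.Pa Y).card ≤ (C.P Y).card + C.N := by
  obtain ⟨S, hS, hSY, htop⟩ := C.exists_top hY
  have hsub : C.Pa Y ⊆ C.P Y ∪ C.g S := by
    intro x hx
    obtain ⟨K, hK, hxK, R, hR, hRY⟩ := C.mem_Pa.mp hx
    by_cases hKY : K ∈ Y
    · exact Finset.mem_union_left _ (C.mem_P.mpr ⟨K, hK, hKY, hxK, R, hR, hRY⟩)
    · apply Finset.mem_union_right
      have hd : Disjoint K S := by
        by_contra hd
        apply hKY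
        rw [← hSY]
        exact C.mem_cl.mpr ⟨hK, hd⟩
      have hxg := hR.1.2.2
      unfold g at hxg ⊢
      rw [mem_nb] at hxg ⊢
      obtain ⟨h1, -, u, hu, hau⟩ := hxg
      exact ⟨h1, fun h2 => Finset.disjoint_left.mp hd hxK h2, u, htop R hR.1.1 hRY hu, hau⟩
  have h1 := (Finset.card_le_card hsub).trans (Finset.card_union_le _ _)
  rw [hS.2.1] at h1
  exact h1

/-- The two counting statements, by strong induction. -/
theorem count (n : ℕ) :
    (∀ Y : Finset (Finset V), Y.card = n → C.IsClass Y →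
      (C.P Y).card + 2 * C.N ≤ 2 * C.N * Y.card) ∧
    (∀ S : Finset (Finset V), S.card = n → S ⊆ C.BB →
      ((C.Pa S).card = 0 ∨ (C.Pa S).card + C.N ≤ 2 * C.N * S.card)) := by
  induction n using Nat.strong_induction_on with
  | _ n ih =>
    have hB : ∀ Y : Finset (Finset V), Y.card = n → C.IsClass Y →
        (C.P Y).card + 2 * C.N ≤ 2 * C.N * Y.card := by
      intro Y hYn hY
      have hYpos : 1 ≤ Y.card := hY.ne.card_pos
      by_cases hemp : C.P Y = ∅
      · rw [hemp, Finset.card_empty, zero_add]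
        exact Nat.le_mul_of_pos_right _ hYpos
      -- proper subclasses
      set Fam := C.BB.powerset.filter (fun W => C.IsClass W ∧ W ⊂ Y) with hFam
      have hFne : Fam.Nonempty := by
        obtain ⟨x, hx⟩ := Finset.nonempty_iff_ne_empty.mpr hemp
        obtain ⟨K, hK, hKY, hxK, R, hR, hRY⟩ := C.mem_P.mp hx
        refine ⟨C.cl R, Finset.mem_filter.mpr ⟨Finset.mem_powerset.mpr
          (Finset.filter_subset _ _), ⟨R, hR.1.1, rfl⟩, ?_⟩⟩
        rw [Finset.ssubset_iff_of_subset hRY]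
        exact ⟨K, hKY, fun h => (C.mem_cl.mp h).2 hR.1.2.1⟩
      obtain ⟨V1, hV1, hmax⟩ := Finset.exists_max_image Fam Finset.card hFne
      rw [hFam, Finset.mem_filter] at hV1
      obtain ⟨-, hV1c, hV1Y⟩ := hV1
      have hsub : C.P Y ⊆ C.Pa V1 ∪ C.Pa (Y \ V1) := by
        intro x hx
        obtain ⟨K, hK, hKY, hxK, R, hR, hRY⟩ := C.mem_P.mp hx
        rw [Finset.mem_union]
        by_cases h1 : C.cl R ⊆ V1
        · exact Or.inl (C.mem_Pa.mpr ⟨K, hK, hxK, R, hR, h1⟩)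
        by_cases h2 : (C.cl R ∩ V1).Nonempty
        · exfalso
          obtain ⟨S, hS, hSV⟩ := hV1c
          obtain ⟨h3, h4⟩ := C.p1 hK hxK hR hS (by rw [hSV]; exact h2) (by rw [hSV]; exact h1)
          obtain ⟨-, -, -, e2, -⟩ := C.inter_union hR.1.1 hS (by rw [hSV]; exact h2)
          have h5 : C.cl (R ∪ S) ⊂ Y := by
            have h6 : C.cl (R ∪ S) ⊆ Y := by
              rw [e2, hSV]
              exact Finset.union_subset hRY hV1Y.1
            rw [Finset.ssubset_iff_of_subset h6]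
            exact ⟨K, hKY, fun h => (C.mem_cl.mp h).2 h4.2.1⟩
          have h6 := hmax (C.cl (R ∪ S)) (Finset.mem_filter.mpr ⟨Finset.mem_powerset.mpr
            (Finset.filter_subset _ _), ⟨R ∪ S, h4.1, rfl⟩, h5⟩)
          have h7 : V1 = C.cl (R ∪ S) := Finset.eq_of_subset_of_card_le (by
            rw [e2, hSV]
            exact Finset.subset_union_right) h6
          apply h1
          rw [h7, e2]
          exact Finset.subset_union_left
        · refine Or.inr (C.mem_Pa.mpr ⟨K, hK, hxK, R, hR, fun W hW => ?_⟩)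
          exact Finset.mem_sdiff.mpr ⟨hRY hW, fun h3 => h2 ⟨W, Finset.mem_inter.mpr ⟨hW, h3⟩⟩⟩
      have hc := (Finset.card_le_card hsub).trans (Finset.card_union_le _ _)
      have hlt : V1.card < Y.card := Finset.card_lt_card hV1Y
      have hpos1 : 1 ≤ V1.card := hV1c.ne.card_pos
      have hsd : (Y \ V1).card + V1.card = Y.card := Finset.card_sdiff_add_card_eq_card hV1Y.1
      have hb1 := (ih V1.card (by omega)).1 V1 rfl hV1c
      have hpa := C.card_Pa_le hV1c
      have ha := (ih (Y \ V1).card (by omega)).2 (Y \ V1) rfl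
        (Finset.sdiff_subset.trans hY.sub)
      have hmul : 2 * C.N * Y.card = 2 * C.N * (Y \ V1).card + 2 * C.N * V1.card := by
        rw [← hsd, mul_add]
      rcases ha with ha | ha
      · have h8 : 2 * C.N * 1 ≤ 2 * C.N * (Y \ V1).card := Nat.mul_le_mul_left _ (by omega)
        omega
      · omega
    refine ⟨hB, fun S hSn hSB => ?_⟩
    by_cases hemp : C.Pa S = ∅
    · left
      rw [hemp, Finset.card_empty]
    right
    set Fam := C.BB.powerset.filter (fun W => C.IsClass W ∧ W ⊆ S) with hFam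
    have hFne : Fam.Nonempty := by
      obtain ⟨x, hx⟩ := Finset.nonempty_iff_ne_empty.mpr hemp
      obtain ⟨K, hK, hxK, R, hR, hRS⟩ := C.mem_Pa.mp hx
      exact ⟨C.cl R, Finset.mem_filter.mpr ⟨Finset.mem_powerset.mpr
        (Finset.filter_subset _ _), ⟨R, hR.1.1, rfl⟩, hRS⟩⟩
    obtain ⟨Y, hY, hmax⟩ := Finset.exists_max_image Fam Finset.card hFne
    rw [hFam, Finset.mem_filter] at hY
    obtain ⟨-, hYc, hYS⟩ := hY
    have hsub : C.Pa S ⊆ C.Pa Y ∪ C.Pa (S \ Y) := by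
      intro x hx
      obtain ⟨K, hK, hxK, R, hR, hRS⟩ := C.mem_Pa.mp hx
      rw [Finset.mem_union]
      by_cases h1 : C.cl R ⊆ Y
      · exact Or.inl (C.mem_Pa.mpr ⟨K, hK, hxK, R, hR, h1⟩)
      refine Or.inr (C.mem_Pa.mpr ⟨K, hK, hxK, R, hR, fun W hW => ?_⟩)
      refine Finset.mem_sdiff.mpr ⟨hRS hW, fun h3 => h1 ?_⟩
      have h4 : C.IsClass (C.cl R ∪ Y) :=
        IsClass.union ⟨R, hR.1.1, rfl⟩ hYc ⟨W, Finset.mem_inter.mpr ⟨hW, h3⟩⟩
      have h5 := hmax (C.cl R ∪ Y) (Finset.mem_filter.mpr ⟨Finset.mem_powerset.mpr h4.sub, h4,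
        Finset.union_subset hRS hYS⟩)
      have h6 : Y = C.cl R ∪ Y :=
        Finset.eq_of_subset_of_card_le Finset.subset_union_right h5
      rw [h6]
      exact Finset.subset_union_left
    have hc := (Finset.card_le_card hsub).trans (Finset.card_union_le _ _)
    have hpos : 1 ≤ Y.card := hYc.ne.card_pos
    have hsd : (S \ Y).card + Y.card = S.card := Finset.card_sdiff_add_card_eq_card hYS
    have hpa := C.card_Pa_le hYc
    have hb : (C.P Y).card + 2 * C.N ≤ 2 * C.N * Y.card := by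
      rcases Nat.lt_or_ge Y.card n with h | h
      · exact (ih Y.card h).1 Y rfl hYc
      · exact hB Y (by omega) hYc
    have ha := (ih (S \ Y).card (by omega)).2 (S \ Y) rfl (Finset.sdiff_subset.trans hSB)
    have hmul : 2 * C.N * S.card = 2 * C.N * (S \ Y).card + 2 * C.N * Y.card := by
      rw [← hsd, mul_add]
    rcases ha with ha | ha
    · have h8 := Nat.zero_le (2 * C.N * (S \ Y).card)
      omega
    · omega

/-- All ports. -/
theorem card_ports : (C.Pa C.BB).card ≤ 2 * C.N * C.BB.card := by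
  rcases (C.count C.BB.card).2 C.BB rfl (Finset.Subset.refl _) with h | h
  · rw [h]
    exact Nat.zero_le _
  · omega

end Ctx

end Pool.Agent.OrdThm
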