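import Pool.Agent.OrdThm.Half

/-! The one-sided core theorem (helper92, helper19): layers and lists. -/

open Classical

namespace Pool.Agent.OrdThm

open Pool.Agent.Mader (Acyc Conn)

universe u

variable {V : Type u}

/-- The layers: `Q 0 = Ξ`, `Q (i+1)` adds everything that is attached through `Q i`. -/
noncomputable def Q (a : V → V → Prop) (Z : Finset V) (N : ℕ) (T Ξ : Finset V) : ℕ → Finset V
  | 0 => Ξ
  | i + 1 => Q a Z N T Ξ i ∪
      (T \ Q a Z N T Ξ i).filter (fun x => Att a Z N (insert x (Q a Z N T Ξ i)) x)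

variable {a : V → V → Prop} {Z : Finset V} {N : ℕ} {T Ξ : Finset V}

theorem Q_succ (i : ℕ) : Q a Z N T Ξ (i + 1) = Q a Z N T Ξ i ∪
      (T \ Q a Z N T Ξ i).filter (fun x => Att a Z N (insert x (Q a Z N T Ξ i)) x) := rfl

theorem Q_sub (hΞ : Ξ ⊆ T) : ∀ i, Q a Z N T Ξ i ⊆ T
  | 0 => hΞ
  | i + 1 => by
    rw [Q_succ]
    exact Finset.union_subset (Q_sub hΞ i) ((Finset.filter_subset _ _).trans Finset.sdiff_subset)

theorem Q_le_succ (i : ℕ) : Q a Z N T Ξ i ⊆ Q a Z N T Ξ (i + 1) := by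
  rw [Q_succ]
  exact Finset.subset_union_left

theorem Q_mono {i j : ℕ} (h : i ≤ j) : Q a Z N T Ξ i ⊆ Q a Z N T Ξ j := by
  induction h with
  | refl => exact Finset.Subset.refl _
  | step _ ih => exact ih.trans (Q_le_succ _)

theorem Q_exhaust (hΞ : Ξ ⊆ T) (hd : Disjoint T Z) (hB : Built a Z N Ξ T) :
    ∃ M, Q a Z N T Ξ M = T := by
  have key : ∀ i, Q a Z N T Ξ i = T ∨ i ≤ (Q a Z N T Ξ i).card := by
    intro i
    induction i with
    | zero => exact Or.inr (Nat.zero_le _)
    | succ i ih =>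
      rcases ih with ih | ih
      · left
        refine Finset.Subset.antisymm (Q_sub hΞ _) ?_
        have := Q_le_succ (a := a) (Z := Z) (N := N) (T := T) (Ξ := Ξ) i
        rw [ih] at this
        exact this
      · by_cases hT : Q a Z N T Ξ i = T
        · left
          exact Finset.Subset.antisymm (Q_sub hΞ _) (by
            have := Q_le_succ (a := a) (Z := Z) (N := N) (T := T) (Ξ := Ξ) i
            rw [hT] at this
            exact this)
        · right
          obtain ⟨x, hx, hxQ, hax⟩ := hB.exists_next hd _ (Q_sub hΞ i)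
            (Q_mono (Nat.zero_le i)) hT
          have hlt : (Q a Z N T Ξ i).card < (Q a Z N T Ξ (i + 1)).card := by
            apply Finset.card_lt_card
            rw [Finset.ssubset_iff_of_subset (Q_le_succ i)]
            refine ⟨x, ?_, hxQ⟩
            rw [Q_succ]
            exact Finset.mem_union_right _ (Finset.mem_filter.mpr
              ⟨Finset.mem_sdiff.mpr ⟨hx, hxQ⟩, hax⟩)
          omega
  refine ⟨T.card + 1, ?_⟩
  rcases key (T.card + 1) with h | h
  · exact h
  · have := Finset.card_le_card (Q_sub (a := a) (Z := Z) (N := N) hΞ (T.card + 1))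
    omega

/-- A vertex outside `Q (i+1)` has less than `N` out-neighbours in `Q i - Ξ`. -/
theorem out_small (hΞ : Ξ ⊆ T) (hd : Disjoint T Z) {i : ℕ} {w : V} (hw : w ∈ T)
    (hwQ : w ∉ Q a Z N T Ξ (i + 1)) :
    ((Q a Z N T Ξ i \ Ξ).filter (fun y => a w y)).card < N := by
  have hwi : w ∉ Q a Z N T Ξ i := fun h => hwQ (Q_le_succ i h)
  have hna : ¬ Att a Z N (insert w (Q a Z N T Ξ i)) w := by
    intro h
    apply hwQ
    rw [Q_succ]
    exact Finset.mem_union_right _ (Finset.mem_filter.mpr ⟨Finset.mem_sdiff.mpr ⟨hw, hwi⟩, h⟩)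
  unfold Att at hna
  push Not at hna
  obtain ⟨R, hR, hwR, hlt⟩ := hna
  refine lt_of_le_of_lt (Finset.card_le_card ?_) hlt
  intro y hy
  rw [Finset.mem_filter, Finset.mem_sdiff] at hy
  obtain ⟨⟨hyQ, hyΞ⟩, hwy⟩ := hy
  refine mem_nb.mpr ⟨Finset.mem_union_left _ (Finset.mem_insert_of_mem hyQ), fun hyR => ?_,
    w, hwR, hwy⟩
  -- `y` is attached in `Q i`
  have hex : ∃ j, y ∈ Q a Z N T Ξ j := ⟨i, hyQ⟩
  have hj := Nat.find_spec hex
  have hji : Nat.find hex ≤ i := Nat.find_min' hex hyQ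
  obtain ⟨j, hj'⟩ : ∃ j, Nat.find hex = j + 1 := by
    rcases Nat.eq_zero_or_pos (Nat.find hex) with h0 | h0
    · rw [h0] at hj
      exact absurd hj hyΞ
    · exact ⟨Nat.find hex - 1, by omega⟩
  have hyj : y ∉ Q a Z N T Ξ j := Nat.find_min hex (by omega)
  rw [hj', Q_succ, Finset.mem_union, Finset.mem_filter] at hj
  have hatt : Att a Z N (insert y (Q a Z N T Ξ j)) y := (hj.resolve_left hyj).2
  have hsub : insert y (Q a Z N T Ξ j) ⊆ Q a Z N T Ξ i :=
    Finset.insert_subset hyQ (Q_mono (by omega))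
  have hQd : Disjoint (Q a Z N T Ξ i) Z := hd.mono_left (Q_sub hΞ i)
  have hatt' := hatt.mono hsub (Finset.mem_insert_self _ _) hQd
  have hyw : y ≠ w := fun h => hwi (h ▸ hyQ)
  have h1 := hatt' (R.erase w) (by
    intro z hz
    rw [Finset.mem_erase] at hz
    rcases Finset.mem_insert.mp (hR hz.2) with h | h
    · exact absurd h hz.1
    · exact h) (Finset.mem_erase.mpr ⟨hyw, hyR⟩)
  have h2 : nb a (Q a Z N T Ξ i ∪ Z) (R.erase w) ⊆ nb a (insert w (Q a Z N T Ξ i) ∪ Z) R := by
    intro z hz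
    rw [mem_nb] at hz ⊢
    obtain ⟨h3, h4, u, hu, huz⟩ := hz
    have hzw : z ≠ w := by
      rintro rfl
      rcases Finset.mem_union.mp h3 with h5 | h5
      · exact hwi h5
      · exact Finset.disjoint_left.mp hd hw h5
    refine ⟨?_, fun h5 => h4 (Finset.mem_erase.mpr ⟨hzw, h5⟩), u, Finset.mem_of_mem_erase hu,
      huz⟩
    rcases Finset.mem_union.mp h3 with h5 | h5
    · exact Finset.mem_union_left _ (Finset.mem_insert_of_mem h5)
    · exact Finset.mem_union_right _ h5
  have h3 := Finset.card_le_card h2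
  omega

/-- Colouring of the layers. -/
theorem layer_colour (hΞ : Ξ ⊆ T) (hd : Disjoint T Z) {m k : ℕ} {P0 : Finset ℕ}
    {Pp : ℕ → Finset ℕ} (hPp : ∀ j, k ≤ (Pp j).card) {F : V → Finset ℕ}
    (hF : ∀ v ∈ T, (F v).card ≤ m)
    (hk : ∀ W ⊆ T, (∀ w ∈ W, Att a Z N (insert w (T \ W)) w) → LCol a (m + N) W k)
    (h0 : ∃ c : V → ℕ, (∀ v ∈ Ξ, c v ∈ P0 ∧ c v ∉ F v) ∧
      ∀ i, Acyc a (Ξ.filter (fun v => c v = i))) (i : ℕ) :
    ∃ c : V → ℕ, (∀ v ∈ Ξ, c v ∈ P0 ∧ c v ∉ F v) ∧
      (∀ l, Acyc a (Ξ.filter (fun v => c v = l))) ∧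
      ∀ j < i, (∀ v ∈ Q a Z N T Ξ (j + 1) \ Q a Z N T Ξ j, c v ∈ Pp (j % 2) ∧ c v ∉ F v ∧
          ∀ y ∈ Q a Z N T Ξ (j - 1) \ Ξ, a v y → c v ≠ c y) ∧
        ∀ l, Acyc a ((Q a Z N T Ξ (j + 1) \ Q a Z N T Ξ j).filter (fun v => c v = l)) := by
  induction i with
  | zero =>
    obtain ⟨c, h1, h2⟩ := h0
    exact ⟨c, h1, h2, fun j hj => absurd hj (Nat.not_lt_zero j)⟩
  | succ i ih =>
    obtain ⟨c, h1, h2, h3⟩ := ih
    set L := Q a Z N T Ξ (i + 1) \ Q a Z N T Ξ i with hL
    have hLT : L ⊆ T := Finset.sdiff_subset.trans (Q_sub hΞ _)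
    have hLatt : ∀ w ∈ L, Att a Z N (insert w (Q a Z N T Ξ i)) w := by
      intro w hw
      rw [hL, Finset.mem_sdiff, Q_succ, Finset.mem_union, Finset.mem_filter] at hw
      exact (hw.1.resolve_left hw.2).2
    have hgood : ∀ w ∈ L, Att a Z N (insert w (T \ L)) w := by
      intro w hw
      refine (hLatt w hw).mono ?_ (Finset.mem_insert_self _ _) ?_
      · apply Finset.insert_subset_insert
        intro y hy
        exact Finset.mem_sdiff.mpr ⟨Q_sub hΞ i hy, fun h => (Finset.mem_sdiff.mp h).2 hy⟩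
      · exact hd.mono_left (Finset.insert_subset (hLT hw) Finset.sdiff_subset)
    set F' : V → Finset ℕ := fun w =>
      F w ∪ ((Q a Z N T Ξ (i - 1) \ Ξ).filter (fun y => a w y)).image c with hF'
    have hF'c : ∀ w ∈ L, (F' w).card ≤ m + N := by
      intro w hw
      have e1 := Finset.card_union_le (F w)
        (((Q a Z N T Ξ (i - 1) \ Ξ).filter (fun y => a w y)).image c)
      have e2 := hF w (hLT hw)
      have e3 : (((Q a Z N T Ξ (i - 1) \ Ξ).filter (fun y => a w y)).image c).card ≤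
          ((Q a Z N T Ξ (i - 1) \ Ξ).filter (fun y => a w y)).card := Finset.card_image_le
      have e4 : ((Q a Z N T Ξ (i - 1) \ Ξ).filter (fun y => a w y)).card ≤ N := by
        rcases Nat.eq_zero_or_pos i with hi | hi
        · subst hi
          have : (Q a Z N T Ξ (0 - 1) \ Ξ) = ∅ := by
            change Ξ \ Ξ = ∅
            exact Finset.sdiff_self Ξ
          rw [this]
          simp
        · have hwi : w ∉ Q a Z N T Ξ ((i - 1) + 1) := by
            have : i - 1 + 1 = i := by omega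
            rw [this]
            exact (Finset.mem_sdiff.mp hw).2
          exact (out_small hΞ hd (hLT hw) hwi).le
      change (F w ∪ _).card ≤ _
      omega
    obtain ⟨c', h4, h5⟩ := hk L hLT hgood (Pp (i % 2)) F' (hPp _) hF'c
    have hQL : ∀ v ∈ Q a Z N T Ξ i, v ∉ L := fun v hv h => (Finset.mem_sdiff.mp h).2 hv
    have hΞL : ∀ v ∈ Ξ, v ∉ L := fun v hv => hQL v (Q_mono (Nat.zero_le i) hv)
    set d : V → ℕ := fun v => if v ∈ L then c' v else c v with hdd
    have hd1 : ∀ v ∈ L, d v = c' v := fun v hv => if_pos hv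
    have hd2 : ∀ v, v ∉ L → d v = c v := fun v hv => if_neg hv
    have hold : ∀ (X : Finset V), (∀ v ∈ X, v ∉ L) → ∀ l,
        X.filter (fun v => d v = l) = X.filter (fun v => c v = l) := by
      intro X hX l
      apply Finset.filter_congr
      intro v hv
      rw [hd2 v (hX v hv)]
    have hsubm : ∀ j, Q a Z N T Ξ (j - 1) ⊆ Q a Z N T Ξ j := fun j => Q_mono (by omega)
    refine ⟨d, ?_, ?_, ?_⟩
    · intro v hv
      rw [hd2 v (hΞL v hv)]
      exact h1 v hv
    · intro l
      rw [hold Ξ hΞL l]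
      exact h2 l
    · intro j hj
      rcases Nat.lt_or_ge j i with hji | hji
      · obtain ⟨h6, h7⟩ := h3 j hji
        have hXL : ∀ v ∈ Q a Z N T Ξ (j + 1) \ Q a Z N T Ξ j, v ∉ L := fun v hv =>
          hQL v (Q_mono (by omega) (Finset.mem_sdiff.mp hv).1)
        refine ⟨fun v hv => ?_, fun l => ?_⟩
        · rw [hd2 v (hXL v hv)]
          obtain ⟨h8, h9, h10⟩ := h6 v hv
          refine ⟨h8, h9, fun y hy hvy => ?_⟩
          have hyL : y ∉ L := hQL y (Q_mono (by omega) (Finset.mem_sdiff.mp hy).1)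
          rw [hd2 y hyL]
          exact h10 y hy hvy
        · rw [hold _ hXL l]
          exact h7 l
      · have hji' : j = i := by omega
        subst hji'
        refine ⟨fun v hv => ?_, fun l => ?_⟩
        · have hv' : v ∈ L := hv
          rw [hd1 v hv']
          obtain ⟨h8, h9⟩ := h4 v hv'
          have h9' : c' v ∉ F v ∪
              ((Q a Z N T Ξ (j - 1) \ Ξ).filter (fun y => a v y)).image c := h9
          rw [Finset.mem_union] at h9'
          push Not at h9'
          refine ⟨h8, h9'.1, fun y hy hvy => ?_⟩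
          have hyL : y ∉ L := hQL y (hsubm j (Finset.mem_sdiff.mp hy).1)
          rw [hd2 y hyL]
          intro heq
          apply h9'.2
          rw [heq]
          exact Finset.mem_image_of_mem c (Finset.mem_filter.mpr ⟨hy, hvy⟩)
        · have : (Q a Z N T Ξ (j + 1) \ Q a Z N T Ξ j).filter (fun v => d v = l) =
              L.filter (fun v => c' v = l) := by
            apply Finset.filter_congr
            intro v hv
            rw [hd1 v hv]
          rw [this]
          exact h5 l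

/-- The layers put together. -/
theorem layers (hΞ : Ξ ⊆ T) (hd : Disjoint T Z) (hB : Built a Z N Ξ T) {m k p : ℕ}
    (hcol : LCol a m Ξ p)
    (hk : ∀ W ⊆ T, (∀ w ∈ W, Att a Z N (insert w (T \ W)) w) → LCol a (m + N) W k) :
    LCol a m T (p + 2 * k) := by
  intro P F hP hF
  obtain ⟨P0, hP0, hP0c⟩ := Finset.exists_subset_card_eq (s := P) (n := p) (by omega)
  have hRc : 2 * k ≤ (P \ P0).card := by
    rw [Finset.card_sdiff_of_subset hP0]
    omega
  obtain ⟨P1, hP1, hP1c⟩ := Finset.exists_subset_card_eq (s := P \ P0) (n := k) (by omega)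
  have hP2c : k ≤ ((P \ P0) \ P1).card := by
    rw [Finset.card_sdiff_of_subset hP1]
    omega
  set Pp : ℕ → Finset ℕ := fun j => if j = 0 then P1 else (P \ P0) \ P1 with hPp
  have hPpsub : ∀ j, Pp j ⊆ P \ P0 := by
    intro j
    by_cases hj : j = 0
    · simp only [hPp, if_pos hj]
      exact hP1
    · simp only [hPp, if_neg hj]
      exact Finset.sdiff_subset
  have hPpdisj : ∀ j j' : ℕ, ∀ x, x ∈ Pp (j % 2) → x ∈ Pp (j' % 2) → j % 2 = j' % 2 := by
    intro j j' x hx hx'
    rcases Nat.mod_two_eq_zero_or_one j with h | h <;>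
      rcases Nat.mod_two_eq_zero_or_one j' with h' | h'
    · omega
    · exfalso
      simp only [hPp, h, h', if_pos, if_neg (by omega : ¬ ((1 : ℕ) = 0))] at hx hx'
      exact (Finset.mem_sdiff.mp hx').2 hx
    · exfalso
      simp only [hPp, h, h', if_pos, if_neg (by omega : ¬ ((1 : ℕ) = 0))] at hx hx'
      exact (Finset.mem_sdiff.mp hx).2 hx'
    · omega
  obtain ⟨M, hM⟩ := Q_exhaust hΞ hd hB
  obtain ⟨c, h1, h2, h3⟩ := layer_colour hΞ hd (k := k) (Pp := Pp) (P0 := P0) (fun j => by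
    by_cases hj : j = 0
    · simp only [hPp, if_pos hj]
      omega
    · simp only [hPp, if_neg hj]
      exact hP2c) hF hk (hcol P0 F (by omega) (fun v hv => hF v (hΞ hv))) M
  -- the layer of a vertex outside `Ξ`
  have hlay : ∀ v ∈ T, v ∉ Ξ → ∃ j < M, v ∈ Q a Z N T Ξ (j + 1) \ Q a Z N T Ξ j := by
    intro v hv hvΞ
    have hex : ∃ j, v ∈ Q a Z N T Ξ j := ⟨M, by rw [hM]; exact hv⟩
    have hj := Nat.find_spec hex
    have hjM : Nat.find hex ≤ M := Nat.find_min' hex (by rw [hM]; exact hv)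
    rcases Nat.eq_zero_or_pos (Nat.find hex) with h0 | h0
    · rw [h0] at hj
      exact absurd hj hvΞ
    · refine ⟨Nat.find hex - 1, by omega, ?_⟩
      have e : Nat.find hex - 1 + 1 = Nat.find hex := by omega
      rw [e]
      exact Finset.mem_sdiff.mpr ⟨hj, Nat.find_min hex (by omega)⟩
  refine ⟨c, ?_, ?_⟩
  · intro v hv
    by_cases hvΞ : v ∈ Ξ
    · exact ⟨hP0 (h1 v hvΞ).1, (h1 v hvΞ).2⟩
    · obtain ⟨j, hj, hvj⟩ := hlay v hv hvΞ
      have h4 := (h3 j hj).1 v hvj
      exact ⟨(Finset.mem_sdiff.mp (hPpsub _ h4.1)).1, h4.2.1⟩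
  · intro l
    by_contra hna
    unfold Pool.Agent.Mader.Acyc at hna
    push Not at hna
    obtain ⟨Y, hY, hYne, hYs⟩ := hna
    have hYm : ∀ v ∈ Y, v ∈ T ∧ c v = l := fun v hv => Finset.mem_filter.mp (hY hv)
    have hnotP0 : ∀ v ∈ Y, v ∉ Ξ → l ∉ P0 := by
      intro v hv hvΞ hl
      obtain ⟨j, hj, hvj⟩ := hlay v (hYm v hv).1 hvΞ
      have h4 := ((h3 j hj).1 v hvj).1
      rw [(hYm v hv).2] at h4
      exact (Finset.mem_sdiff.mp (hPpsub _ h4)).2 hl
    by_cases hex : ∃ v ∈ Y, v ∈ Ξ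
    · obtain ⟨v, hv, hvΞ⟩ := hex
      have hl : l ∈ P0 := by
        have := (h1 v hvΞ).1
        rw [(hYm v hv).2] at this
        exact this
      have hYΞ : ∀ w ∈ Y, w ∈ Ξ := by
        intro w hw
        by_contra hwΞ
        exact hnotP0 w hw hwΞ hl
      obtain ⟨z, hz, hz'⟩ := h2 l Y (fun w hw => Finset.mem_filter.mpr
        ⟨hYΞ w hw, (hYm w hw).2⟩) hYne
      obtain ⟨y, hy, hzy⟩ := hYs z hz
      exact hz' y hy hzy
    · push Not at hex
      have hlayY : ∀ v ∈ Y, ∃ j, j < M ∧ v ∈ Q a Z N T Ξ (j + 1) \ Q a Z N T Ξ j :=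
        fun v hv => hlay v (hYm v hv).1 (hex v hv)
      choose! lev hlevM hlev using hlayY
      obtain ⟨v, hv, hmax⟩ := Finset.exists_max_image Y lev hYne
      set j := lev v with hj
      set Yj := Y.filter (fun w => w ∈ Q a Z N T Ξ (j + 1) \ Q a Z N T Ξ j) with hYj
      obtain ⟨z, hz, hz'⟩ := (h3 j (hlevM v hv)).2 l Yj (by
        intro w hw
        rw [hYj, Finset.mem_filter] at hw
        exact Finset.mem_filter.mpr ⟨hw.2, (hYm w hw.1).2⟩)
        ⟨v, Finset.mem_filter.mpr ⟨hv, hlev v hv⟩⟩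
      rw [hYj, Finset.mem_filter] at hz
      obtain ⟨y, hy, hzy⟩ := hYs z hz.1
      have h4 := (h3 j (hlevM v hv)).1 z hz.2
      have h5 := (h3 (lev y) (hlevM y hy)).1 y (hlev y hy)
      have h6 := hmax y hy
      have hpar : j % 2 = lev y % 2 := by
        apply hPpdisj j (lev y) l
        · have := h4.1
          rw [(hYm z hz.1).2] at this
          exact this
        · have := h5.1
          rw [(hYm y hy).2] at this
          exact this
      rcases Nat.lt_or_ge (lev y) j with h7 | h7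
      · have h8 : lev y + 1 ≤ j - 1 := by omega
        have h9 : y ∈ Q a Z N T Ξ (j - 1) \ Ξ :=
          Finset.mem_sdiff.mpr ⟨Q_mono h8 (Finset.mem_sdiff.mp (hlev y hy)).1, hex y hy⟩
        exact h4.2.2 y h9 hzy ((hYm z hz.1).2.trans (hYm y hy).2.symm)
      · have h8 : lev y = j := by omega
        have h9 := hlev y hy
        rw [h8] at h9
        exact hz' y (Finset.mem_filter.mpr ⟨hy, h9⟩) hzy

/-- The one-sided core theorem: `T` attached to `Z`, every `W ⊆ T` which is attached to `Z`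
outside itself has list measure at most `k`. Then `T` has measure at most `9 N + m + 2 k`. -/
theorem one_sided (hirr : ∀ v, ¬ a v v) (hN : 0 < N) (hd : Disjoint T Z) {m k : ℕ}
    (hT : ∀ v ∈ T, Att a Z N T v)
    (hk : ∀ W ⊆ T, (∀ w ∈ W, Att a Z N (insert w (T \ W)) w) → LCol a (m + N) W k) :
    LCol a m T (9 * N + m + 2 * k) := by
  obtain ⟨Ξ, hΞ, hno, hB⟩ := order_theorem (a := a) (T := T) (Z := Z) hN
    (Rich := fun K => ¬ LCol a m K (5 * N + m))
    (fun K K' hKK' hK h => hK (h.mono (le_refl _) hKK' (le_refl _)))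
    (fun K hK => by
      have := card_of_not_LCol hirr hK
      omega) hT
  have hcol : LCol a m Ξ (9 * N + m) := by
    by_contra hbad
    obtain ⟨K, -, hKi, hKb⟩ := halving Z (q := 2 * N) hbad
    apply hno K hKi
    intro h
    exact hKb (h.mono (le_refl _) (Finset.Subset.refl _) (by omega))
  exact layers hΞ hd hB hcol hk

end Pool.Agent.OrdThm
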