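import Pool.Agent.OrdThm.Count

/-! The order theorem: attached vertices can be removed one by one until no rich inseparable
set is left (helper92). -/

open Classical

namespace Pool.Agent.OrdThm

universe u

variable {V : Type u}

namespace Ctx

variable (C : Ctx V)

/-- exit part: critical vertices of `K` in tight regions which meet `K` -/
theorem exit_part {K : Finset V} (hK : K ∈ C.BB) :
    ∃ E : Finset V, E.card ≤ C.N ∧ ∀ x ∈ K, ∀ R, C.Tight R → x ∈ C.g R → ¬ Disjoint K R →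
      x ∈ E := by
  by_cases hex : ∃ R, C.Tight R ∧ ¬ Disjoint K R
  · have hfin : (C.X.powerset.filter (fun R => C.Tight R ∧ ¬ Disjoint K R)).Nonempty := by
      obtain ⟨R, hR, h⟩ := hex
      exact ⟨R, Finset.mem_filter.mpr ⟨Finset.mem_powerset.mpr hR.1, hR, h⟩⟩
    obtain ⟨R0, hR0, hmin⟩ := Finset.exists_min_image _ Finset.card hfin
    rw [Finset.mem_filter] at hR0
    obtain ⟨-, hT0, hd0⟩ := hR0
    have hK0 : K ∈ C.cl R0 := C.mem_cl.mpr ⟨hK, hd0⟩
    refine ⟨C.g R0, le_of_eq hT0.2.1, fun x hx R hR hxR hd => ?_⟩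
    have hKR : K ∈ C.cl R := C.mem_cl.mpr ⟨hK, hd⟩
    obtain ⟨h1, -, h2, -, -⟩ := C.inter_union hT0 hR ⟨K, Finset.mem_inter.mpr ⟨hK0, hKR⟩⟩
    have h3 : ¬ Disjoint K (R0 ∩ R) := C.inter_meet hT0 hR hK0 hKR
    have h4 := hmin (R0 ∩ R) (Finset.mem_filter.mpr ⟨Finset.mem_powerset.mpr h1.1, h1, h3⟩)
    have h5 : R0 ∩ R = R0 := Finset.eq_of_subset_of_card_le Finset.inter_subset_left h4
    have h6 : x ∉ R := (mem_nb.mp hxR).2.1
    rcases Finset.mem_union.mp (hT0.in_sub hK0 hx) with h7 | h7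
    · exact absurd (Finset.inter_eq_left.mp h5 h7) h6
    · exact h7
  · push Not at hex
    refine ⟨∅, by simp, fun x hx R hR hxR hd => absurd (hex R hR) hd⟩

/-- the union of all members of `BB` -/
noncomputable def U : Finset V := C.BB.biUnion id

/-- critical vertices of the union -/
noncomputable def Cr : Finset V := C.U.filter (fun x => ∃ R, C.Tight R ∧ x ∈ C.g R)

theorem card_Cr : C.Cr.card ≤ 3 * C.N * C.BB.card := by
  have hE : ∀ K : Finset V, ∃ E : Finset V, K ∈ C.BB → (E.card ≤ C.N ∧ ∀ x ∈ K, ∀ R,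
      C.Tight R → x ∈ C.g R → ¬ Disjoint K R → x ∈ E) := by
    intro K
    by_cases hK : K ∈ C.BB
    · obtain ⟨E, h1, h2⟩ := C.exit_part hK
      exact ⟨E, fun _ => ⟨h1, h2⟩⟩
    · exact ⟨∅, fun h => absurd h hK⟩
  choose E hE using hE
  have hsub : C.Cr ⊆ C.BB.biUnion E ∪ C.Pa C.BB := by
    intro x hx
    unfold Cr at hx
    rw [Finset.mem_filter] at hx
    obtain ⟨hxU, R, hR, hxR⟩ := hx
    unfold U at hxU
    rw [Finset.mem_biUnion] at hxU
    obtain ⟨K, hK, hxK⟩ := hxU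
    rw [Finset.mem_union]
    by_cases hd : Disjoint K R
    · right
      obtain ⟨S, hS⟩ := C.exists_mwit ⟨hR, hd, hxR⟩
      exact C.mem_Pa.mpr ⟨K, hK, hxK, S, hS, Finset.filter_subset _ _⟩
    · left
      exact Finset.mem_biUnion.mpr ⟨K, hK, (hE K hK).2 x hxK R hR hxR hd⟩
  have h1 := (Finset.card_le_card hsub).trans (Finset.card_union_le _ _)
  have h2 : (C.BB.biUnion E).card ≤ C.BB.card * C.N :=
    Finset.card_biUnion_le_card_mul _ _ _ (fun K hK => (hE K hK).1)
  have h3 := C.card_ports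
  have h4 : 3 * C.N * C.BB.card = C.BB.card * C.N + 2 * C.N * C.BB.card := by ring
  omega

end Ctx

/-- (P3): the union is large. -/
theorem union_large {a : V → V → Prop} {Y : Finset V} {q c : ℕ} (n : ℕ) :
    ∀ 𝓑 : Finset (Finset V), 𝓑.card = n → 𝓑.Nonempty →
    (∀ K ∈ 𝓑, ∀ R ⊆ Y, (nb a Y R).card < q → Disjoint K R ∨ K ⊆ R ∪ nb a Y R) →
    (∀ K ∈ 𝓑, c < K.card) →
    (∀ K₁ ∈ 𝓑, ∀ K₂ ∈ 𝓑, K₁ ≠ K₂ → ∃ R ⊆ Y, (nb a Y R).card < q ∧
      ((¬ Disjoint K₁ R ∧ Disjoint K₂ R) ∨ (¬ Disjoint K₂ R ∧ Disjoint K₁ R))) →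
    𝓑.card * (c + 1) ≤ (𝓑.biUnion id).card + q * (𝓑.card - 1) := by
  induction n using Nat.strong_induction_on with
  | _ n ih =>
    intro 𝓑 hn hne hins hbig hsplit
    rcases Nat.lt_or_ge 𝓑.card 2 with hlt | hge
    · have h1 : 𝓑.card = 1 := by
        have := hne.card_pos
        omega
      obtain ⟨K, hK⟩ := Finset.card_eq_one.mp h1
      have h2 : 𝓑.biUnion id = K := by
        rw [hK, Finset.singleton_biUnion]
        rfl
      rw [h1, h2]
      have h3 := hbig K (by rw [hK]; exact Finset.mem_singleton_self K)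
      omega
    · obtain ⟨K₁, hK₁, K₂, hK₂, hne12⟩ := Finset.one_lt_card.mp hge
      obtain ⟨R, hR, hcR, hsp⟩ := hsplit K₁ hK₁ K₂ hK₂ hne12
      set 𝓘 := 𝓑.filter (fun K => ¬ Disjoint K R) with h𝓘
      set 𝓞 := 𝓑.filter (fun K => ¬ ¬ Disjoint K R) with h𝓞
      have hIs : 𝓘 ⊆ 𝓑 := Finset.filter_subset _ _
      have hOs : 𝓞 ⊆ 𝓑 := Finset.filter_subset _ _
      have hcard : 𝓘.card + 𝓞.card = 𝓑.card :=
        Finset.card_filter_add_card_filter_not _
      have hIne : 𝓘.Nonempty := by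
        rcases hsp with h | h
        · exact ⟨K₁, Finset.mem_filter.mpr ⟨hK₁, h.1⟩⟩
        · exact ⟨K₂, Finset.mem_filter.mpr ⟨hK₂, h.1⟩⟩
      have hOne : 𝓞.Nonempty := by
        rcases hsp with h | h
        · exact ⟨K₂, Finset.mem_filter.mpr ⟨hK₂, not_not.mpr h.2⟩⟩
        · exact ⟨K₁, Finset.mem_filter.mpr ⟨hK₁, not_not.mpr h.2⟩⟩
      have hIpos := hIne.card_pos
      have hOpos := hOne.card_pos
      have h1 := ih 𝓘.card (by omega) 𝓘 rfl hIne (fun K hK => hins K (hIs hK))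
        (fun K hK => hbig K (hIs hK)) (fun K₁ h₁ K₂ h₂ => hsplit K₁ (hIs h₁) K₂ (hIs h₂))
      have h2 := ih 𝓞.card (by omega) 𝓞 rfl hOne (fun K hK => hins K (hOs hK))
        (fun K hK => hbig K (hOs hK)) (fun K₁ h₁ K₂ h₂ => hsplit K₁ (hOs h₁) K₂ (hOs h₂))
      have hU : 𝓘.biUnion id ∪ 𝓞.biUnion id ⊆ 𝓑.biUnion id :=
        Finset.union_subset (Finset.biUnion_subset_biUnion_of_subset_left _ hIs)
          (Finset.biUnion_subset_biUnion_of_subset_left _ hOs)
      have hI : 𝓘.biUnion id ∩ 𝓞.biUnion id ⊆ nb a Y R := by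
        intro y hy
        rw [Finset.mem_inter, Finset.mem_biUnion, Finset.mem_biUnion] at hy
        obtain ⟨⟨K, hK, hyK⟩, ⟨K', hK', hyK'⟩⟩ := hy
        rw [h𝓘, Finset.mem_filter] at hK
        rw [h𝓞, Finset.mem_filter, not_not] at hK'
        have h3 : y ∉ R := fun h => Finset.disjoint_left.mp hK'.2 hyK' h
        rcases hins K hK.1 R hR hcR with h4 | h4
        · exact absurd h4 hK.2
        · rcases Finset.mem_union.mp (h4 hyK) with h5 | h5
          · exact absurd h5 h3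
          · exact h5
      have h3 := Finset.card_le_card hU
      have h4 := Finset.card_le_card hI
      have h5 := Finset.card_union_add_card_inter (𝓘.biUnion id) (𝓞.biUnion id)
      have e1 : 𝓑.card * (c + 1) = 𝓘.card * (c + 1) + 𝓞.card * (c + 1) := by
        rw [← hcard, add_mul]
      have e2 : q * (𝓑.card - 1) = q * (𝓘.card - 1) + q * (𝓞.card - 1) + q := by
        have e3 : 𝓑.card - 1 = (𝓘.card - 1) + (𝓞.card - 1) + 1 := by omega
        rw [e3]
        ring
      omega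

/-- Some vertex of a member of `𝓑` is not critical, for a family of contexts with the same
inseparable sets. -/
theorem exists_noncritical {ι : Type*} (I : Finset ι) (C : ι → Ctx V) {𝓑 : Finset (Finset V)}
    {N : ℕ} (hB : ∀ i ∈ I, (C i).BB = 𝓑) (hN : ∀ i ∈ I, (C i).N = N)
    {a : V → V → Prop} {Y : Finset V} {q : ℕ}
    (hins : ∀ K ∈ 𝓑, ∀ R ⊆ Y, (nb a Y R).card < q → Disjoint K R ∨ K ⊆ R ∪ nb a Y R)
    (hbig : ∀ K ∈ 𝓑, 3 * N * I.card + q ≤ K.card)
    (hsplit : ∀ K₁ ∈ 𝓑, ∀ K₂ ∈ 𝓑, K₁ ≠ K₂ → ∃ R ⊆ Y, (nb a Y R).card < q ∧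
      ((¬ Disjoint K₁ R ∧ Disjoint K₂ R) ∨ (¬ Disjoint K₂ R ∧ Disjoint K₁ R)))
    (hq : 0 < q) (hne : 𝓑.Nonempty) :
    ∃ K ∈ 𝓑, ∃ x ∈ K, ∀ i ∈ I, ∀ R, (C i).Tight R → x ∉ (C i).g R := by
  have h1 := union_large (c := 3 * N * I.card + q - 1) 𝓑.card 𝓑 rfl hne hins (fun K hK => by
    have := hbig K hK
    omega) hsplit
  have h2 : (I.biUnion (fun i => (C i).Cr)).card ≤ I.card * (3 * N * 𝓑.card) := by
    refine Finset.card_biUnion_le_card_mul _ _ _ (fun i hi => ?_)
    have h3 := (C i).card_Cr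
    rw [hB i hi, hN i hi] at h3
    exact h3
  have h3 := hne.card_pos
  have hlt : (I.biUnion (fun i => (C i).Cr)).card < (𝓑.biUnion id).card := by
    have e0 : 3 * N * I.card + q - 1 + 1 = 3 * N * I.card + q := by omega
    rw [e0] at h1
    have e1 : 𝓑.card * (3 * N * I.card + q) = I.card * (3 * N * 𝓑.card) + q * (𝓑.card - 1) +
        q := by
      obtain ⟨b, hb⟩ : ∃ b, 𝓑.card = b + 1 := ⟨𝓑.card - 1, by omega⟩
      rw [hb, Nat.add_sub_cancel]
      ring
    omega
  obtain ⟨x, hxU, hxC⟩ := Finset.exists_mem_notMem_of_card_lt_card hlt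
  have hxU' := hxU
  rw [Finset.mem_biUnion] at hxU
  obtain ⟨K, hK, hxK⟩ := hxU
  refine ⟨K, hK, x, hxK, fun i hi R hR hxR => hxC ?_⟩
  refine Finset.mem_biUnion.mpr ⟨i, hi, Finset.mem_filter.mpr ⟨?_, R, hR, hxR⟩⟩
  unfold Ctx.U
  rw [hB i hi]
  exact hxU'

/-- One step: if all rich inseparable sets of `X` are attached and there is one, then an attached
vertex can be deleted. -/
theorem step {a : V → V → Prop} {X Z : Finset V} {N : ℕ} (hN : 0 < N)
    {Rich : Finset V → Prop} (hmono : ∀ K K' : Finset V, K ⊆ K' → Rich K → Rich K')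
    (hbig : ∀ K, Rich K → 5 * N < K.card)
    (hI : ∀ K, Insep a Z (2 * N) X K → Rich K → ∀ v ∈ K, Att a Z N X v)
    (hex : ∃ K, Insep a Z (2 * N) X K ∧ Rich K) :
    ∃ x ∈ X, Att a Z N X x ∧
      ∀ K, Insep a Z (2 * N) (X.erase x) K → Rich K → ∀ v ∈ K, Att a Z N (X.erase x) v := by
  -- the maximal rich inseparable sets
  set BB := X.powerset.filter (fun K => Insep a Z (2 * N) X K ∧ Rich K ∧
    ∀ K', Insep a Z (2 * N) X K' → K ⊆ K' → K' = K) with hBB
  have hmem : ∀ K, K ∈ BB ↔ (Insep a Z (2 * N) X K ∧ Rich K ∧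
      ∀ K', Insep a Z (2 * N) X K' → K ⊆ K' → K' = K) := by
    intro K
    rw [hBB, Finset.mem_filter]
    exact ⟨fun h => h.2, fun h => ⟨Finset.mem_powerset.mpr h.1.1, h⟩⟩
  have hcover : ∀ K, Insep a Z (2 * N) X K → Rich K → ∃ K' ∈ BB, K ⊆ K' := by
    intro K hK hr
    have hne : (X.powerset.filter (fun K' => Insep a Z (2 * N) X K' ∧ K ⊆ K')).Nonempty :=
      ⟨K, Finset.mem_filter.mpr ⟨Finset.mem_powerset.mpr hK.1, hK, Finset.Subset.refl _⟩⟩
    obtain ⟨K', hK', hmax⟩ := Finset.exists_max_image _ Finset.card hne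
    rw [Finset.mem_filter] at hK'
    refine ⟨K', (hmem K').mpr ⟨hK'.2.1, hmono _ _ hK'.2.2 hr, fun L hL hsub => ?_⟩, hK'.2.2⟩
    have h1 := hmax L (Finset.mem_filter.mpr ⟨Finset.mem_powerset.mpr hL.1, hL,
      hK'.2.2.trans hsub⟩)
    exact (Finset.eq_of_subset_of_card_le hsub h1).symm
  let C : Ctx V :=
    { a := a
      X := X
      Z := Z
      N := N
      BB := BB
      hX := fun K hK => ((hmem K).mp hK).1.1
      hins := fun K hK R hR hc => ((hmem K).mp hK).1.2 R hR (by omega)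
      hatt := by
        intro K hK R hR hd
        have hK' := (hmem K).mp hK
        rw [Finset.not_disjoint_iff] at hd
        obtain ⟨v, hvK, hvR⟩ := hd
        exact hI K hK'.1 hK'.2.1 v hvK R hR hvR
      hbig := fun K hK => by
        have := hbig K ((hmem K).mp hK).2.1
        omega }
  have hsplit : ∀ K₁ ∈ BB, ∀ K₂ ∈ BB, K₁ ≠ K₂ → ∃ R ⊆ X ∪ Z, (nb a (X ∪ Z) R).card < 2 * N ∧
      ((¬ Disjoint K₁ R ∧ Disjoint K₂ R) ∨ (¬ Disjoint K₂ R ∧ Disjoint K₁ R)) := by
        intro K₁ h₁ K₂ h₂ hne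
        have h₁' := (hmem K₁).mp h₁
        have h₂' := (hmem K₂).mp h₂
        have hnot : ¬ Insep a Z (2 * N) X (K₁ ∪ K₂) := by
          intro h
          apply hne
          rw [← h₁'.2.2 _ h Finset.subset_union_left]
          exact h₂'.2.2 _ h Finset.subset_union_right
        unfold Insep at hnot
        push Not at hnot
        obtain ⟨R, hR, hc, hd, hs⟩ := hnot (Finset.union_subset h₁'.1.1 h₂'.1.1)
        refine ⟨R, hR, hc, ?_⟩
        rw [Finset.disjoint_union_left] at hd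
        rcases h₁'.1.2 R hR hc with a1 | a1
        · rcases h₂'.1.2 R hR hc with a2 | a2
          · exact absurd ⟨a1, a2⟩ hd
          · exact Or.inr ⟨fun h => hd ⟨a1, h⟩, a1⟩
        · rcases h₂'.1.2 R hR hc with a2 | a2
          · exact Or.inl ⟨fun h => hd ⟨h, a2⟩, a2⟩
          · exact absurd (Finset.union_subset a1 a2) hs
  obtain ⟨K0, hK0, hr0⟩ := hex
  obtain ⟨K1, hK1, -⟩ := hcover K0 hK0 hr0
  obtain ⟨K, hK, x, hxK, hnc'⟩ := exists_noncritical {()} (fun _ => C) (N := N)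
    (fun _ _ => rfl) (fun _ _ => rfl) (fun K hK => ((hmem K).mp hK).1.2) (fun K hK => by
      have := hbig K ((hmem K).mp hK).2.1
      rw [Finset.card_singleton]
      omega) hsplit (by omega) ⟨K1, hK1⟩
  have hnc : ∀ R, C.Tight R → x ∉ C.g R := hnc' () (Finset.mem_singleton_self _)
  have hK' := (hmem K).mp hK
  have hxX : x ∈ X := hK'.1.1 hxK
  refine ⟨x, hxX, hI K hK'.1 hK'.2.1 x hxK, ?_⟩
  intro L hL hrL v hv R hR hvR
  by_contra hlt
  push Not at hlt
  obtain ⟨L', hL', hLL'⟩ := hcover L hL.of_erase hrL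
  have hL'' := (hmem L').mp hL'
  have hRX : R ⊆ X := hR.trans (Finset.erase_subset _ _)
  have hge : N ≤ (nb a (X ∪ Z) R).card :=
    hI L' hL''.1 hL''.2.1 v (hLL' hv) R hRX hvR
  have hsub : nb a (X ∪ Z) R ⊆ insert x (nb a (X.erase x ∪ Z) R) := by
    intro y hy
    rw [mem_nb] at hy
    rw [Finset.mem_insert]
    by_cases hyx : y = x
    · exact Or.inl hyx
    · right
      refine mem_nb.mpr ⟨?_, hy.2.1, hy.2.2⟩
      rcases Finset.mem_union.mp hy.1 with h | h
      · exact Finset.mem_union_left _ (Finset.mem_erase.mpr ⟨hyx, h⟩)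
      · exact Finset.mem_union_right _ h
  have hc1 := (Finset.card_le_card hsub).trans (Finset.card_insert_le _ _)
  have hxnb : x ∈ nb a (X ∪ Z) R := by
    by_contra hx
    have : nb a (X ∪ Z) R ⊆ nb a (X.erase x ∪ Z) R := by
      intro y hy
      rcases Finset.mem_insert.mp (hsub hy) with h | h
      · rw [h] at hy
        exact absurd hy hx
      · exact h
    have := Finset.card_le_card this
    omega
  have htight : C.Tight R := by
    refine ⟨hRX, ?_, ⟨L', C.mem_cl.mpr ⟨hL', ?_⟩⟩⟩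
    · change (nb a (X ∪ Z) R).card = N
      omega
    · rw [Finset.not_disjoint_iff]
      exact ⟨v, hLL' hv, hvR⟩
  exact hnc R htight hxnb

/-- Sets built from `Ξ` by adding attached vertices one at a time. -/
inductive Built (a : V → V → Prop) (Z : Finset V) (N : ℕ) (Ξ : Finset V) : Finset V → Prop
  | base : Built a Z N Ξ Ξ
  | add {X : Finset V} {x : V} : Built a Z N Ξ X → x ∉ X → Att a Z N (insert x X) x →
      Built a Z N Ξ (insert x X)

theorem Built.sub {a : V → V → Prop} {Z : Finset V} {N : ℕ} {Ξ X : Finset V}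
    (h : Built a Z N Ξ X) : Ξ ⊆ X := by
  induction h with
  | base => exact Finset.Subset.refl _
  | add _ _ _ ih => exact ih.trans (Finset.subset_insert _ _)

/-- The order theorem. -/
theorem order_theorem {a : V → V → Prop} {T Z : Finset V} {N : ℕ} (hN : 0 < N)
    {Rich : Finset V → Prop} (hmono : ∀ K K' : Finset V, K ⊆ K' → Rich K → Rich K')
    (hbig : ∀ K, Rich K → 5 * N < K.card) (hT : ∀ v ∈ T, Att a Z N T v) :
    ∃ Ξ ⊆ T, (∀ K, Insep a Z (2 * N) Ξ K → ¬ Rich K) ∧ Built a Z N Ξ T := by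
  have key : ∀ n : ℕ, ∀ X : Finset V, X.card = n →
      (∀ K, Insep a Z (2 * N) X K → Rich K → ∀ v ∈ K, Att a Z N X v) →
      ∃ Ξ ⊆ X, (∀ K, Insep a Z (2 * N) Ξ K → ¬ Rich K) ∧ Built a Z N Ξ X := by
    intro n
    induction n with
    | zero =>
      intro X hX _
      refine ⟨X, Finset.Subset.refl _, fun K hK hr => ?_, Built.base⟩
      have h1 := hbig K hr
      have h2 := Finset.card_le_card hK.1
      omega
    | succ n ih =>
      intro X hX hI
      by_cases hex : ∃ K, Insep a Z (2 * N) X K ∧ Rich K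
      · obtain ⟨x, hx, hax, hI'⟩ := step hN hmono hbig hI hex
        obtain ⟨Ξ, hΞ, h1, h2⟩ := ih (X.erase x) (by
          rw [Finset.card_erase_of_mem hx, hX]
          rfl) hI'
        refine ⟨Ξ, hΞ.trans (Finset.erase_subset _ _), h1, ?_⟩
        have h3 : insert x (X.erase x) = X := Finset.insert_erase hx
        rw [← h3]
        refine Built.add h2 (Finset.notMem_erase _ _) ?_
        rw [h3]
        exact hax
      · push Not at hex
        exact ⟨X, Finset.Subset.refl _, hex, Built.base⟩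
  exact key T.card T rfl (fun K hK _ v hv => hT v (hK.1 hv))

/-- In a built set every intermediate set can be enlarged by an attached vertex. -/
theorem Built.exists_next {a : V → V → Prop} {Z : Finset V} {N : ℕ} {Ξ T : Finset V}
    (h : Built a Z N Ξ T) (hd : Disjoint T Z) :
    ∀ Q ⊆ T, Ξ ⊆ Q → Q ≠ T → ∃ x ∈ T, x ∉ Q ∧ Att a Z N (insert x Q) x := by
  have key : ∀ X, Built a Z N Ξ X → X ⊆ T → ∀ Q ⊆ T, Ξ ⊆ Q → ¬ X ⊆ Q →
      ∃ x ∈ T, x ∉ Q ∧ Att a Z N (insert x Q) x := by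
    intro X hX
    induction hX with
    | base =>
      intro _ Q _ h1 h2
      exact absurd h1 h2
    | @add X x hB hx hA ih =>
      intro hXT Q hQ h1 h2
      by_cases h3 : X ⊆ Q
      · have hxQ : x ∉ Q := fun h4 => h2 (Finset.insert_subset h4 h3)
        have hxT : x ∈ T := hXT (Finset.mem_insert_self _ _)
        refine ⟨x, hxT, hxQ, hA.mono (Finset.insert_subset_insert _ h3)
          (Finset.mem_insert_self _ _) ?_⟩
        exact hd.mono_left (Finset.insert_subset hxT hQ)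
      · exact ih ((Finset.subset_insert _ _).trans hXT) Q hQ h1 h3
  intro Q hQ h1 h2
  exact key T h (Finset.Subset.refl _) Q hQ h1 (fun h3 => h2 (Finset.Subset.antisymm hQ h3))

end Pool.Agent.OrdThm
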