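import Mathlib

/-! Out-neighbourhoods of regions in a finite digraph, submodularity, attached vertices. -/

open Classical

namespace Pool.Agent.OrdThm

universe u

variable {V : Type u}

/-- out-neighbours of `R` in `Y` outside `R` -/
noncomputable def nb (a : V → V → Prop) (Y R : Finset V) : Finset V :=
  (Y \ R).filter (fun y => ∃ u ∈ R, a u y)

theorem mem_nb {a : V → V → Prop} {Y R : Finset V} {y : V} :
    y ∈ nb a Y R ↔ y ∈ Y ∧ y ∉ R ∧ ∃ u ∈ R, a u y := by
  unfold nb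
  rw [Finset.mem_filter, Finset.mem_sdiff, and_assoc]

theorem nb_union_subset (a : V → V → Prop) (Y R S : Finset V) :
    nb a Y (R ∩ S) ∪ nb a Y (R ∪ S) ⊆ nb a Y R ∪ nb a Y S := by
  intro y hy
  rw [Finset.mem_union] at hy ⊢
  rcases hy with h | h
  · rw [mem_nb] at h
    obtain ⟨h1, h2, u, hu, hau⟩ := h
    rw [Finset.mem_inter] at h2 hu
    by_cases hR : y ∈ R
    · right
      exact mem_nb.mpr ⟨h1, fun hS => h2 ⟨hR, hS⟩, u, hu.2, hau⟩
    · left
      exact mem_nb.mpr ⟨h1, hR, u, hu.1, hau⟩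
  · rw [mem_nb] at h
    obtain ⟨h1, h2, u, hu, hau⟩ := h
    rw [Finset.mem_union] at h2 hu
    push Not at h2
    rcases hu with hu | hu
    · left
      exact mem_nb.mpr ⟨h1, h2.1, u, hu, hau⟩
    · right
      exact mem_nb.mpr ⟨h1, h2.2, u, hu, hau⟩

theorem nb_inter_subset (a : V → V → Prop) (Y R S : Finset V) :
    nb a Y (R ∩ S) ∩ nb a Y (R ∪ S) ⊆ nb a Y R ∩ nb a Y S := by
  intro y hy
  rw [Finset.mem_inter] at hy ⊢
  obtain ⟨h, h'⟩ := hy
  rw [mem_nb] at h h'
  obtain ⟨h1, h2, u, hu, hau⟩ := h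
  obtain ⟨h3, h4, -⟩ := h'
  rw [Finset.mem_inter] at hu
  rw [Finset.mem_union] at h4
  push Not at h4
  exact ⟨mem_nb.mpr ⟨h1, h4.1, u, hu.1, hau⟩, mem_nb.mpr ⟨h1, h4.2, u, hu.2, hau⟩⟩

/-- Submodularity of the order of a region. -/
theorem nb_submod (a : V → V → Prop) (Y R S : Finset V) :
    (nb a Y (R ∩ S)).card + (nb a Y (R ∪ S)).card ≤ (nb a Y R).card + (nb a Y S).card := by
  rw [← Finset.card_union_add_card_inter, ← Finset.card_union_add_card_inter (nb a Y R)]
  exact Nat.add_le_add (Finset.card_le_card (nb_union_subset a Y R S))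
    (Finset.card_le_card (nb_inter_subset a Y R S))

/-- Equality in submodularity holds vertex by vertex. -/
theorem nb_eq_case {a : V → V → Prop} {Y R S : Finset V}
    (h : (nb a Y R).card + (nb a Y S).card ≤ (nb a Y (R ∩ S)).card + (nb a Y (R ∪ S)).card)
    {x : V} (hx : x ∈ nb a Y R) (hx' : x ∉ nb a Y (R ∩ S)) :
    x ∈ nb a Y (R ∪ S) ∧ x ∉ nb a Y S := by
  rw [← Finset.card_union_add_card_inter, ← Finset.card_union_add_card_inter
    (nb a Y (R ∩ S))] at h
  have h1 := Finset.card_le_card (nb_union_subset a Y R S)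
  have h2 := Finset.card_le_card (nb_inter_subset a Y R S)
  have e1 : nb a Y (R ∩ S) ∪ nb a Y (R ∪ S) = nb a Y R ∪ nb a Y S :=
    Finset.eq_of_subset_of_card_le (nb_union_subset a Y R S) (by omega)
  have e2 : nb a Y (R ∩ S) ∩ nb a Y (R ∪ S) = nb a Y R ∩ nb a Y S :=
    Finset.eq_of_subset_of_card_le (nb_inter_subset a Y R S) (by omega)
  constructor
  · have h3 : x ∈ nb a Y (R ∩ S) ∪ nb a Y (R ∪ S) := by
      rw [e1]
      exact Finset.mem_union_left _ hx
    rcases Finset.mem_union.mp h3 with h4 | h4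
    · exact absurd h4 hx'
    · exact h4
  · intro h3
    have h4 : x ∈ nb a Y (R ∩ S) ∩ nb a Y (R ∪ S) := by
      rw [e2]
      exact Finset.mem_inter.mpr ⟨hx, h3⟩
    exact hx' (Finset.mem_inter.mp h4).1

/-- `v` is attached in `X`: every region of `X` with `v` inside has order at least `N` in
`X ∪ Z`. -/
def Att (a : V → V → Prop) (Z : Finset V) (N : ℕ) (X : Finset V) (v : V) : Prop :=
  ∀ R ⊆ X, v ∈ R → N ≤ (nb a (X ∪ Z) R).card

/-- Attachment is monotone in the set. -/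
theorem Att.mono {a : V → V → Prop} {Z : Finset V} {N : ℕ} {X X' : Finset V} {v : V}
    (h : Att a Z N X v) (hX : X ⊆ X') (hv : v ∈ X) (hd : Disjoint X' Z) : Att a Z N X' v := by
  intro R hR hvR
  refine (h (R ∩ X) Finset.inter_subset_right (Finset.mem_inter.mpr ⟨hvR, hv⟩)).trans
    (Finset.card_le_card ?_)
  intro y hy
  rw [mem_nb] at hy ⊢
  obtain ⟨h1, h2, u, hu, hau⟩ := hy
  rw [Finset.mem_union] at h1
  rw [Finset.mem_inter] at h2 hu
  rcases h1 with h1 | h1
  · exact ⟨Finset.mem_union_left _ (hX h1), fun h3 => h2 ⟨h3, h1⟩, u, hu.1, hau⟩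
  · exact ⟨Finset.mem_union_right _ h1, fun h3 => Finset.disjoint_left.mp hd (hR h3) h1,
      u, hu.1, hau⟩

/-- `K` is `m`-inseparable in `X ∪ Z`, in the language of regions. -/
def Insep (a : V → V → Prop) (Z : Finset V) (m : ℕ) (X K : Finset V) : Prop :=
  K ⊆ X ∧ ∀ R ⊆ X ∪ Z, (nb a (X ∪ Z) R).card < m → Disjoint K R ∨ K ⊆ R ∪ nb a (X ∪ Z) R

/-- An inseparable set of `X - x` is inseparable in `X`. -/
theorem Insep.of_erase {a : V → V → Prop} {Z : Finset V} {m : ℕ} {X K : Finset V} {x : V}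
    (h : Insep a Z m (X.erase x) K) : Insep a Z m X K := by
  obtain ⟨h1, h2⟩ := h
  refine ⟨h1.trans (Finset.erase_subset _ _), fun R hR hc => ?_⟩
  have hsub : nb a (X.erase x ∪ Z) (R ∩ (X.erase x ∪ Z)) ⊆ nb a (X ∪ Z) R := by
    intro y hy
    rw [mem_nb] at hy ⊢
    obtain ⟨h3, h4, u, hu, hau⟩ := hy
    rw [Finset.mem_inter] at h4 hu
    refine ⟨?_, fun h5 => h4 ⟨h5, h3⟩, u, hu.1, hau⟩
    rcases Finset.mem_union.mp h3 with h5 | h5
    · exact Finset.mem_union_left _ (Finset.mem_of_mem_erase h5)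
    · exact Finset.mem_union_right _ h5
  rcases h2 (R ∩ (X.erase x ∪ Z)) Finset.inter_subset_right
    ((Finset.card_le_card hsub).trans_lt hc) with h3 | h3
  · left
    rw [Finset.disjoint_left] at h3 ⊢
    intro y hy hyR
    exact h3 hy (Finset.mem_inter.mpr ⟨hyR, Finset.mem_union_left _ (h1 hy)⟩)
  · right
    intro y hy
    rcases Finset.mem_union.mp (h3 hy) with h4 | h4
    · exact Finset.mem_union_left _ (Finset.mem_inter.mp h4).1
    · exact Finset.mem_union_right _ (hsub h4)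

end Pool.Agent.OrdThm
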