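import Pool.Agent.OrdThm.OSJ

/-! The order theorem for a family of directions, targets and worlds at once. -/

open Classical

namespace Pool.Agent.OrdThm

open Pool.Agent.Mader (Acyc Conn)

universe u

variable {V : Type u}

/-- Inseparable sets stay inseparable in larger worlds. -/
theorem insep_world {a : V → V → Prop} {m : ℕ} {Y Y' K : Finset V} (hKY : K ⊆ Y) (hYY : Y ⊆ Y')
    (h : ∀ R ⊆ Y, (nb a Y R).card < m → Disjoint K R ∨ K ⊆ R ∪ nb a Y R) :
    ∀ R ⊆ Y', (nb a Y' R).card < m → Disjoint K R ∨ K ⊆ R ∪ nb a Y' R := by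
  intro R hR hc
  have hsub : nb a Y (R ∩ Y) ⊆ nb a Y' R := by
    intro y hy
    rw [mem_nb] at hy ⊢
    obtain ⟨h1, h2, u, hu, hau⟩ := hy
    exact ⟨hYY h1, fun h3 => h2 (Finset.mem_inter.mpr ⟨h3, h1⟩), u,
      (Finset.mem_inter.mp hu).1, hau⟩
  rcases h (R ∩ Y) Finset.inter_subset_right ((Finset.card_le_card hsub).trans_lt hc)
    with h1 | h1
  · left
    rw [Finset.disjoint_left] at h1 ⊢
    exact fun y hy hyR => h1 hy (Finset.mem_inter.mpr ⟨hyR, hKY hy⟩)
  · right
    intro y hy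
    rcases Finset.mem_union.mp (h1 hy) with h2 | h2
    · exact Finset.mem_union_left _ (Finset.mem_inter.mp h2).1
    · exact Finset.mem_union_right _ (hsub h2)

/-- Inseparability is symmetric under reversal. -/
theorem insep_rev {a : V → V → Prop} {m : ℕ} {Y K : Finset V} (hKY : K ⊆ Y)
    (h : ∀ R ⊆ Y, (nb a Y R).card < m → Disjoint K R ∨ K ⊆ R ∪ nb a Y R) :
    ∀ R ⊆ Y, (nb (fun x y => a y x) Y R).card < m →
      Disjoint K R ∨ K ⊆ R ∪ nb (fun x y => a y x) Y R := by
  intro R hR hc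
  set S := nb (fun x y => a y x) Y R with hS
  have hsub : nb a Y (Y \ (R ∪ S)) ⊆ S := by
    intro y hy
    rw [mem_nb] at hy
    obtain ⟨h1, h2, u, hu, hau⟩ := hy
    rw [Finset.mem_sdiff, Finset.mem_union] at hu
    push Not at hu
    have h3 : y ∈ R ∪ S := by
      by_contra h3
      exact h2 (Finset.mem_sdiff.mpr ⟨h1, h3⟩)
    rcases Finset.mem_union.mp h3 with h4 | h4
    · exact absurd (mem_nb.mpr ⟨hu.1, hu.2.1, y, h4, hau⟩) hu.2.2
    · exact h4
  rcases h _ Finset.sdiff_subset ((Finset.card_le_card hsub).trans_lt hc) with h1 | h1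
  · right
    intro y hy
    by_contra h2
    exact Finset.disjoint_left.mp h1 hy (Finset.mem_sdiff.mpr ⟨hKY hy, h2⟩)
  · left
    rw [Finset.disjoint_left]
    intro y hy hyR
    rcases Finset.mem_union.mp (h1 hy) with h2 | h2
    · exact (Finset.mem_sdiff.mp h2).2 (Finset.mem_union_left _ hyR)
    · exact (mem_nb.mp (hsub h2)).2.1 hyR

/-- `Insep` for the reversed digraph. -/
theorem Insep.rev {a : V → V → Prop} {Z : Finset V} {m : ℕ} {X K : Finset V}
    (h : Insep a Z m X K) : Insep (fun x y => a y x) Z m X K :=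
  ⟨h.1, insep_rev (h.1.trans Finset.subset_union_left) h.2⟩

/-- One step of the order theorem for a family of directions `A i` (each of them `a` or the
reverse of `a`), junk sets `J i` and targets `Z i`. -/
theorem step_fam {ι : Type*} [Fintype ι] {a : V → V → Prop} {A : ι → V → V → Prop}
    {J Z : ι → Finset V} {T W : Finset V} {N q : ℕ} (hNq : N < q)
    (hA : ∀ i, A i = a ∨ A i = fun x y => a y x) (hW : ∀ i, W ⊆ J i ∪ Z i)
    {Rich : Finset V → Prop} (hmono : ∀ K K' : Finset V, K ⊆ K' → Rich K → Rich K')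
    (hbig : ∀ K, Rich K → 3 * N * Fintype.card ι + q ≤ K.card)
    (hI : ∀ K, Insep a W q T K → Rich K → ∀ v ∈ K, ∀ i, Att (A i) (Z i) N (T ∪ J i) v)
    (hex : ∃ K, Insep a W q T K ∧ Rich K) :
    ∃ x ∈ T, (∀ i, Att (A i) (Z i) N (T ∪ J i) x) ∧
      ∀ K, Insep a W q (T.erase x) K → Rich K → ∀ v ∈ K, ∀ i,
        Att (A i) (Z i) N (T.erase x ∪ J i) v := by
  -- the maximal rich inseparable sets
  set BB := T.powerset.filter (fun K => Insep a W q T K ∧ Rich K ∧
    ∀ K', Insep a W q T K' → K ⊆ K' → K' = K) with hBB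
  have hmem : ∀ K, K ∈ BB ↔ (Insep a W q T K ∧ Rich K ∧
      ∀ K', Insep a W q T K' → K ⊆ K' → K' = K) := by
    intro K
    rw [hBB, Finset.mem_filter]
    exact ⟨fun h => h.2, fun h => ⟨Finset.mem_powerset.mpr h.1.1, h⟩⟩
  have hcover : ∀ K, Insep a W q T K → Rich K → ∃ K' ∈ BB, K ⊆ K' := by
    intro K hK hr
    have hne : (T.powerset.filter (fun K' => Insep a W q T K' ∧ K ⊆ K')).Nonempty :=
      ⟨K, Finset.mem_filter.mpr ⟨Finset.mem_powerset.mpr hK.1, hK, Finset.Subset.refl _⟩⟩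
    obtain ⟨K', hK', hmax⟩ := Finset.exists_max_image _ Finset.card hne
    rw [Finset.mem_filter] at hK'
    refine ⟨K', (hmem K').mpr ⟨hK'.2.1, hmono _ _ hK'.2.2 hr, fun L hL hsub => ?_⟩, hK'.2.2⟩
    have h1 := hmax L (Finset.mem_filter.mpr ⟨Finset.mem_powerset.mpr hL.1, hL,
      hK'.2.2.trans hsub⟩)
    exact (Finset.eq_of_subset_of_card_le hsub h1).symm
  let C : ι → Ctx V := fun i =>
    { a := A i
      X := T ∪ J i
      Z := Z i
      N := N
      BB := BB
      hX := fun K hK => ((hmem K).mp hK).1.1.trans Finset.subset_union_left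
      hins := by
        intro K hK R hR hc
        have hK' := ((hmem K).mp hK).1
        have hKY : K ⊆ T ∪ W := hK'.1.trans Finset.subset_union_left
        have hYY : T ∪ W ⊆ T ∪ J i ∪ Z i := by
          rw [Finset.union_assoc]
          exact Finset.union_subset_union (Finset.Subset.refl _) (hW i)
        rcases hA i with hi | hi
        · rw [hi] at hc ⊢
          exact insep_world hKY hYY hK'.2 R hR (by omega)
        · rw [hi] at hc ⊢
          exact insep_world hKY hYY hK'.rev.2 R hR (by omega)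
      hatt := by
        intro K hK R hR hd
        have hK' := (hmem K).mp hK
        rw [Finset.not_disjoint_iff] at hd
        obtain ⟨v, hvK, hvR⟩ := hd
        exact hI K hK'.1 hK'.2.1 v hvK i R hR hvR
      hbig := fun K hK => by
        have h1 := hbig K ((hmem K).mp hK).2.1
        have h2 : 0 < Fintype.card ι := Fintype.card_pos_iff.mpr ⟨i⟩
        have h3 : 3 * N * 1 ≤ 3 * N * Fintype.card ι := Nat.mul_le_mul_left _ h2
        omega }
  have hsplit : ∀ K₁ ∈ BB, ∀ K₂ ∈ BB, K₁ ≠ K₂ → ∃ R ⊆ T ∪ W, (nb a (T ∪ W) R).card < q ∧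
      ((¬ Disjoint K₁ R ∧ Disjoint K₂ R) ∨ (¬ Disjoint K₂ R ∧ Disjoint K₁ R)) := by
    intro K₁ h₁ K₂ h₂ hne
    have h₁' := (hmem K₁).mp h₁
    have h₂' := (hmem K₂).mp h₂
    have hnot : ¬ Insep a W q T (K₁ ∪ K₂) := by
      intro h
      apply hne
      rw [← h₁'.2.2 _ h Finset.subset_union_left]
      exact h₂'.2.2 _ h Finset.subset_union_right
    unfold Insep at hnot
    push Not at hnot
    obtain ⟨R, hR, hc, hd, hs⟩ := hnot (Finset.union_subset h₁'.1.1 h₂'.1.1)
    refine ⟨R, hR, hc, ?_⟩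
    rw [Finset.disjoint_union_left] at hd
    rcases h₁'.1.2 R hR hc with a1 | a1
    · rcases h₂'.1.2 R hR hc with a2 | a2
      · exact absurd ⟨a1, a2⟩ hd
      · exact Or.inr ⟨fun h => hd ⟨a1, h⟩, a1⟩
    · rcases h₂'.1.2 R hR hc with a2 | a2
      · exact Or.inl ⟨fun h => hd ⟨h, a2⟩, a2⟩
      · exact absurd (Finset.union_subset a1 a2) hs
  obtain ⟨K0, hK0, hr0⟩ := hex
  obtain ⟨K1, hK1, -⟩ := hcover K0 hK0 hr0
  obtain ⟨K, hK, x, hxK, hnc'⟩ := exists_noncritical Finset.univ C (N := N)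
    (fun _ _ => rfl) (fun _ _ => rfl) (fun K hK => ((hmem K).mp hK).1.2) (fun K hK => by
      have := hbig K ((hmem K).mp hK).2.1
      rw [Finset.card_univ]
      exact this) hsplit (by omega) ⟨K1, hK1⟩
  have hK' := (hmem K).mp hK
  have hxT : x ∈ T := hK'.1.1 hxK
  refine ⟨x, hxT, fun i => hI K hK'.1 hK'.2.1 x hxK i, ?_⟩
  intro L hL hrL v hv i R hR hvR
  by_contra hlt
  push Not at hlt
  obtain ⟨L', hL', hLL'⟩ := hcover L hL.of_erase hrL
  have hL'' := (hmem L').mp hL'
  have hRX : R ⊆ T ∪ J i :=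
    hR.trans (Finset.union_subset_union (Finset.erase_subset _ _) (Finset.Subset.refl _))
  have hge : N ≤ (nb (A i) (T ∪ J i ∪ Z i) R).card :=
    hI L' hL''.1 hL''.2.1 v (hLL' hv) i R hRX hvR
  have hsub : nb (A i) (T ∪ J i ∪ Z i) R ⊆ insert x (nb (A i) (T.erase x ∪ J i ∪ Z i) R) := by
    intro y hy
    rw [mem_nb] at hy
    rw [Finset.mem_insert]
    by_cases hyx : y = x
    · exact Or.inl hyx
    · right
      refine mem_nb.mpr ⟨?_, hy.2.1, hy.2.2⟩
      have hy1 := hy.1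
      rw [Finset.mem_union, Finset.mem_union] at hy1 ⊢
      rcases hy1 with (h | h) | h
      · exact Or.inl (Or.inl (Finset.mem_erase.mpr ⟨hyx, h⟩))
      · exact Or.inl (Or.inr h)
      · exact Or.inr h
  have hc1 := (Finset.card_le_card hsub).trans (Finset.card_insert_le _ _)
  have hxnb : x ∈ nb (A i) (T ∪ J i ∪ Z i) R := by
    by_contra hx
    have : nb (A i) (T ∪ J i ∪ Z i) R ⊆ nb (A i) (T.erase x ∪ J i ∪ Z i) R := by
      intro y hy
      rcases Finset.mem_insert.mp (hsub hy) with h | h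
      · rw [h] at hy
        exact absurd hy hx
      · exact h
    have := Finset.card_le_card this
    omega
  have htight : (C i).Tight R := by
    refine ⟨hRX, ?_, ⟨L', (C i).mem_cl.mpr ⟨hL', ?_⟩⟩⟩
    · change (nb (A i) (T ∪ J i ∪ Z i) R).card = N
      omega
    · rw [Finset.not_disjoint_iff]
      exact ⟨v, hLL' hv, hvR⟩
  exact hnc' i (Finset.mem_univ i) R htight hxnb

/-- Sets built from `Ξ` by adding vertices which are attached in all directions. -/
inductive BuiltF {ι : Type*} (A : ι → V → V → Prop) (J Z : ι → Finset V) (N : ℕ)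
    (Ξ : Finset V) : Finset V → Prop
  | base : BuiltF A J Z N Ξ Ξ
  | add {X : Finset V} {x : V} : BuiltF A J Z N Ξ X → x ∉ X →
      (∀ i, Att (A i) (Z i) N (insert x X ∪ J i) x) → BuiltF A J Z N Ξ (insert x X)

theorem BuiltF.sub {ι : Type*} {A : ι → V → V → Prop} {J Z : ι → Finset V} {N : ℕ}
    {Ξ X : Finset V} (h : BuiltF A J Z N Ξ X) : Ξ ⊆ X := by
  induction h with
  | base => exact Finset.Subset.refl _
  | add _ _ _ ih => exact ih.trans (Finset.subset_insert _ _)

/-- The order theorem for a family of directions, junk sets and targets. -/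
theorem order_fam {ι : Type*} [Fintype ι] {a : V → V → Prop} {A : ι → V → V → Prop}
    {J Z : ι → Finset V} {T W : Finset V} {N q : ℕ} (hNq : N < q)
    (hA : ∀ i, A i = a ∨ A i = fun x y => a y x) (hW : ∀ i, W ⊆ J i ∪ Z i)
    {Rich : Finset V → Prop} (hmono : ∀ K K' : Finset V, K ⊆ K' → Rich K → Rich K')
    (hbig : ∀ K, Rich K → 3 * N * Fintype.card ι + q ≤ K.card)
    (hT : ∀ v ∈ T, ∀ i, Att (A i) (Z i) N (T ∪ J i) v) :
    ∃ Ξ ⊆ T, (∀ K, Insep a W q Ξ K → ¬ Rich K) ∧ BuiltF A J Z N Ξ T := by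
  have key : ∀ n : ℕ, ∀ X : Finset V, X.card = n →
      (∀ K, Insep a W q X K → Rich K → ∀ v ∈ K, ∀ i, Att (A i) (Z i) N (X ∪ J i) v) →
      ∃ Ξ ⊆ X, (∀ K, Insep a W q Ξ K → ¬ Rich K) ∧ BuiltF A J Z N Ξ X := by
    intro n
    induction n with
    | zero =>
      intro X hX _
      refine ⟨X, Finset.Subset.refl _, fun K hK hr => ?_, BuiltF.base⟩
      have h1 := hbig K hr
      have h2 := Finset.card_le_card hK.1
      omega
    | succ n ih =>
      intro X hX hI
      by_cases hex : ∃ K, Insep a W q X K ∧ Rich K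
      · obtain ⟨x, hx, hax, hI'⟩ := step_fam hNq hA hW hmono hbig hI hex
        obtain ⟨Ξ, hΞ, h1, h2⟩ := ih (X.erase x) (by
          rw [Finset.card_erase_of_mem hx, hX]
          rfl) hI'
        refine ⟨Ξ, hΞ.trans (Finset.erase_subset _ _), h1, ?_⟩
        have h3 : insert x (X.erase x) = X := Finset.insert_erase hx
        rw [← h3]
        refine BuiltF.add h2 (Finset.notMem_erase _ _) ?_
        rw [h3]
        exact hax
      · push Not at hex
        exact ⟨X, Finset.Subset.refl _, hex, BuiltF.base⟩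
  exact key T.card T rfl (fun K hK _ v hv => hT v (hK.1 hv))

/-- In a built set every intermediate set can be enlarged by a vertex which is attached in all
directions. -/
theorem BuiltF.exists_next {ι : Type*} {A : ι → V → V → Prop} {J Z : ι → Finset V} {N : ℕ}
    {Ξ T : Finset V} (h : BuiltF A J Z N Ξ T) (hd : ∀ i, Disjoint (T ∪ J i) (Z i)) :
    ∀ Q ⊆ T, Ξ ⊆ Q → Q ≠ T → ∃ x ∈ T, x ∉ Q ∧ ∀ i, Att (A i) (Z i) N (insert x Q ∪ J i) x := by
  have key : ∀ X, BuiltF A J Z N Ξ X → X ⊆ T → ∀ Q ⊆ T, Ξ ⊆ Q → ¬ X ⊆ Q →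
      ∃ x ∈ T, x ∉ Q ∧ ∀ i, Att (A i) (Z i) N (insert x Q ∪ J i) x := by
    intro X hX
    induction hX with
    | base =>
      intro _ Q _ h1 h2
      exact absurd h1 h2
    | @add X x hB hx hA ih =>
      intro hXT Q hQ h1 h2
      by_cases h3 : X ⊆ Q
      · have hxQ : x ∉ Q := fun h4 => h2 (Finset.insert_subset h4 h3)
        have hxT : x ∈ T := hXT (Finset.mem_insert_self _ _)
        refine ⟨x, hxT, hxQ, fun i => (hA i).mono
          (Finset.union_subset_union (Finset.insert_subset_insert _ h3) (Finset.Subset.refl _))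
          (Finset.mem_union_left _ (Finset.mem_insert_self _ _)) ?_⟩
        exact (hd i).mono_left (Finset.union_subset_union (Finset.insert_subset hxT hQ)
          (Finset.Subset.refl _))
      · exact ih ((Finset.subset_insert _ _).trans hXT) Q hQ h1 h3
  intro Q hQ h1 h2
  exact key T h (Finset.Subset.refl _) Q hQ h1 (fun h3 => h2 (Finset.Subset.antisymm hQ h3))

/-- The order theorem for a family, with the cost of the static part. -/
theorem order_fam_col {ι : Type*} [Fintype ι] {a : V → V → Prop} (hirr : ∀ v, ¬ a v v)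
    {A : ι → V → V → Prop} {J Z : ι → Finset V} {T W : Finset V} {N q : ℕ} (hNq : N < q)
    (hA : ∀ i, A i = a ∨ A i = fun x y => a y x) (hW : ∀ i, W ⊆ J i ∪ Z i)
    (hT : ∀ v ∈ T, ∀ i, Att (A i) (Z i) N (T ∪ J i) v) (m : ℕ) :
    ∃ Ξ ⊆ T, LCol a m Ξ (m + 3 * N * Fintype.card ι + 3 * q) ∧ BuiltF A J Z N Ξ T := by
  obtain ⟨Ξ, hΞ, hno, hB⟩ := order_fam hNq hA hW
    (Rich := fun K => ¬ LCol a m K (m + 3 * N * Fintype.card ι + q))
    (fun K K' hKK' hK h => hK (h.mono (le_refl _) hKK' (le_refl _)))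
    (fun K hK => by
      have := card_of_not_LCol hirr hK
      omega) hT
  refine ⟨Ξ, hΞ, ?_, hB⟩
  by_contra hbad
  obtain ⟨K, hKT, hKi, hKb⟩ := halving_junk W (q := q) (Finset.Subset.refl Ξ) hbad
  apply hno K hKi
  intro h
  exact hKb (h.mono (le_refl _) (Finset.Subset.refl _) (by omega))

/-- The two-sided order theorem: `T` attached to `Z₁` in `T ∪ J₁`, and `T` attached to `Z₂` in
`T ∪ J₂` in the reversed digraph. -/
theorem order_two {a : V → V → Prop} (hirr : ∀ v, ¬ a v v) {J₁ J₂ Z₁ Z₂ T : Finset V} {N q : ℕ}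
    (hNq : N < q) (h₁ : ∀ v ∈ T, Att a Z₁ N (T ∪ J₁) v)
    (h₂ : ∀ v ∈ T, Att (fun x y => a y x) Z₂ N (T ∪ J₂) v)
    (hd₁ : Disjoint (T ∪ J₁) Z₁) (hd₂ : Disjoint (T ∪ J₂) Z₂) (m : ℕ) :
    ∃ Ξ ⊆ T, LCol a m Ξ (m + 6 * N + 3 * q) ∧
      ∀ Q ⊆ T, Ξ ⊆ Q → Q ≠ T → ∃ x ∈ T, x ∉ Q ∧ Att a Z₁ N (insert x Q ∪ J₁) x ∧
        Att (fun x y => a y x) Z₂ N (insert x Q ∪ J₂) x := by
  obtain ⟨Ξ, hΞ, hcol, hB⟩ := order_fam_col (ι := Bool) hirr (a := a)
    (A := fun i => if i then a else fun x y => a y x) (J := fun i => if i then J₁ else J₂)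
    (Z := fun i => if i then Z₁ else Z₂) (T := T) (W := ∅) hNq
    (fun i => by cases i <;> simp) (fun i => Finset.empty_subset _)
    (fun v hv i => by
      cases i
      · simpa using h₂ v hv
      · simpa using h₁ v hv) m
  refine ⟨Ξ, hΞ, ?_, ?_⟩
  · refine hcol.mono (le_refl _) (Finset.Subset.refl _) ?_
    rw [Fintype.card_bool]
    omega
  · intro Q hQ hΞQ hne
    obtain ⟨x, hx, hxQ, hx'⟩ := hB.exists_next (fun i => by
      cases i
      · simpa using hd₂
      · simpa using hd₁) Q hQ hΞQ hne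
    refine ⟨x, hx, hxQ, ?_, ?_⟩
    · simpa using hx' true
    · simpa using hx' false

end Pool.Agent.OrdThm
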